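import Mathlib

/-!
Real Monge-Ampere measures of toric potentials on the product of three projective lines:
basic definitions and two elementary lemmas.
-/

namespace Pool.Agent.Kolodziej

open MeasureTheory Set

/-- Points of real three-space. -/
abbrev R3 := Fin 3 → ℝ

/-- The scalar product. -/
def dot (p x : R3) : ℝ := p 0 * x 0 + p 1 * x 1 + p 2 * x 2

/-- The set of (global) subgradients of `u` at `x`. -/
def subgrad (u : R3 → ℝ) (x : R3) : Set R3 :=
  {p | ∀ y, u x + dot p (y - x) ≤ u y}

/-- The real Monge-Ampere measure (in the sense of Alexandrov) of the set `E`. -/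
noncomputable def realMA (u : R3 → ℝ) (E : Set R3) : ENNReal :=
  volume (⋃ x ∈ E, subgrad u x)

/-- The support function of the unit cube. -/
noncomputable def psi (x : R3) : ℝ := max (x 0) 0 + max (x 1) 0 + max (x 2) 0

/-- Toric potentials: convex functions at bounded distance from `psi`. -/
def IsToricPotential (u : R3 → ℝ) : Prop :=
  ConvexOn ℝ univ u ∧ ∃ A : ℝ, ∀ x, |u x - psi x| ≤ A

lemma dot_add (p x y : R3) : dot p (x + y) = dot p x + dot p y := by
  simp only [dot, Pi.add_apply]; ring

lemma dot_smul (p x : R3) (c : ℝ) : dot p (c • x) = c * dot p x := by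
  simp only [dot, Pi.smul_apply, smul_eq_mul]; ring

lemma dot_sub (p x y : R3) : dot p (x - y) = dot p x - dot p y := by
  simp only [dot, Pi.sub_apply]; ring

lemma psi_smul {c : ℝ} (hc : 0 ≤ c) (h : R3) : psi (c • h) = c * psi h := by
  have key : ∀ a : ℝ, max (c * a) 0 = c * max a 0 := by
    intro a
    rw [mul_max_of_nonneg _ _ hc, mul_zero]
  simp only [psi, Pi.smul_apply, smul_eq_mul, key]; ring

lemma psi_add_le (x h : R3) : psi (x + h) ≤ psi x + psi h := by
  have key : ∀ a b : ℝ, max (a + b) 0 ≤ max a 0 + max b 0 := by
    intro a b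
    apply max_le
    · exact add_le_add (le_max_left _ _) (le_max_left _ _)
    · have := le_max_right a 0; have := le_max_right b 0; linarith
  simp only [psi, Pi.add_apply]
  have := key (x 0) (h 0); have := key (x 1) (h 1); have := key (x 2) (h 2)
  linarith

/-- A toric potential has recession function at most `psi`. -/
lemma IsToricPotential.add_le {u : R3 → ℝ} (hu : IsToricPotential u) (x h : R3) :
    u (x + h) ≤ u x + psi h := by
  obtain ⟨hc, A, hA⟩ := hu
  have step : ∀ N : ℕ, 0 < N → u (x + h) ≤ u x + psi h + (psi x + A - u x) / N := by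
    intro N hN
    have hN' : (0 : ℝ) < N := by exact_mod_cast hN
    have ha0 : 0 ≤ 1 - 1 / (N : ℝ) := by
      have : (1 : ℝ) / N ≤ 1 := by
        rw [div_le_one hN']; exact_mod_cast hN
      linarith
    have hb0 : 0 ≤ 1 / (N : ℝ) := by positivity
    have h1 := hc.2 (mem_univ x) (mem_univ (x + (N : ℝ) • h)) ha0 hb0 (by ring)
    have e1 : (1 - 1 / (N : ℝ)) • x + (1 / (N : ℝ)) • (x + (N : ℝ) • h) = x + h := by
      ext i
      simp only [Pi.add_apply, Pi.smul_apply, smul_eq_mul]
      field_simp
      ring
    rw [e1] at h1
    have h2 : u (x + (N : ℝ) • h) ≤ psi x + N * psi h + A := by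
      have := (abs_le.1 (hA (x + (N : ℝ) • h))).2
      have h3 := psi_add_le x ((N : ℝ) • h)
      rw [psi_smul hN'.le] at h3
      linarith
    simp only [smul_eq_mul] at h1
    have h4 : 1 / (N : ℝ) * u (x + (N : ℝ) • h) ≤ 1 / (N : ℝ) * (psi x + N * psi h + A) :=
      mul_le_mul_of_nonneg_left h2 (by positivity)
    have e2 : (1 - 1 / (N : ℝ)) * u x + 1 / (N : ℝ) * (psi x + N * psi h + A)
        = u x + psi h + (psi x + A - u x) / N := by
      field_simp
      ring
    linarith
  have lim : Filter.Tendsto (fun N : ℕ => u x + psi h + (psi x + A - u x) / N) Filter.atTop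
      (nhds (u x + psi h + 0)) :=
    Filter.Tendsto.const_add _ (tendsto_const_div_atTop_nhds_zero_nat _)
  rw [add_zero] at lim
  exact ge_of_tendsto lim (Filter.eventually_atTop.2 ⟨1, fun N hN => step N hN⟩)

lemma IsToricPotential.subgrad_le {u : R3 → ℝ} (hu : IsToricPotential u) {x p : R3}
    (hp : p ∈ subgrad u x) (h : R3) : dot p h ≤ psi h := by
  have h1 := hp (x + h)
  rw [add_sub_cancel_left] at h1
  have h2 := hu.add_le x h
  linarith

/-- The vertex lemma: a family of points with values and sets of slopes satisfying the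
pairwise inequality is realised by a toric potential. -/
theorem exists_vertex_potential {ι : Type*} [Countable ι] (z : ι → R3) (val : ι → ℝ)
    (K : ι → Set R3) (hK : ∀ i, ∀ p ∈ K i, ∀ m, 0 ≤ p m ∧ p m ≤ 1)
    (hKm : ∀ i, MeasurableSet (K i)) (hz : ∀ i j, i ≠ j → z i ≠ z j)
    (H1 : ∀ i j, ∀ p ∈ K j, val j + dot p (z i - z j) ≤ val i)
    (H2 : ∀ i, psi (z i) ≤ val i) (A : ℝ) (hA : 0 ≤ A)
    (H3 : ∀ i, ∀ p ∈ K i, val i - dot p (z i) ≤ A) :
    ∃ v : R3 → ℝ, IsToricPotential v ∧
      (∀ i, K i ⊆ subgrad v (z i)) ∧
      (Pairwise (Function.onFun (AEDisjoint volume) K)) ∧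
      ∀ E : Set R3, ∑' i : {i // z i ∈ E}, volume (K i) ≤ realMA v E := by
  classical
  set S : R3 → Set ℝ := fun x => {c | c = psi x ∨ ∃ i, ∃ p ∈ K i, c = val i + dot p (x - z i)}
    with hS
  have dot_le : ∀ i, ∀ p ∈ K i, ∀ x, dot p x ≤ psi x := by
    intro i p hp x
    have key : ∀ m, p m * x m ≤ max (x m) 0 := by
      intro m
      obtain ⟨h0, h1⟩ := hK i p hp m
      have a1 : x m ≤ max (x m) 0 := le_max_left _ _
      have a2 : 0 ≤ max (x m) 0 := le_max_right _ _
      nlinarith
    simp only [dot, psi]
    have := key 0; have := key 1; have := key 2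
    linarith
  have bdd : ∀ x, ∀ c ∈ S x, c ≤ psi x + A := by
    intro x c hc
    rcases hc with rfl | ⟨i, p, hp, rfl⟩
    · linarith
    · have h1 := H3 i p hp
      have h2 := dot_le i p hp x
      rw [dot_sub]; linarith
  have bdd' : ∀ x, BddAbove (S x) := fun x => ⟨psi x + A, fun c hc => bdd x c hc⟩
  have ne : ∀ x, (S x).Nonempty := fun x => ⟨psi x, Or.inl rfl⟩
  set v : R3 → ℝ := fun x => sSup (S x) with hv
  have v_ge_psi : ∀ x, psi x ≤ v x := fun x => le_csSup (bdd' x) (Or.inl rfl)
  have v_le : ∀ x, v x ≤ psi x + A := fun x => csSup_le (ne x) (bdd x)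
  have v_ge : ∀ i, ∀ p ∈ K i, ∀ x, val i + dot p (x - z i) ≤ v x := fun i p hp x =>
    le_csSup (bdd' x) (Or.inr ⟨i, p, hp, rfl⟩)
  have v_z : ∀ i, v (z i) ≤ val i := by
    intro i
    apply csSup_le (ne _)
    rintro c (rfl | ⟨j, p, hp, rfl⟩)
    · exact H2 i
    · exact H1 i j p hp
  have sub : ∀ i, K i ⊆ subgrad v (z i) := by
    intro i p hp y
    have h1 := v_ge i p hp y
    have h2 := v_z i
    linarith
  have conv : ConvexOn ℝ univ v := by
    refine ⟨convex_univ, ?_⟩
    intro x _ y _ a b ha hb hab
    apply csSup_le (ne _)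
    rintro c (rfl | ⟨i, p, hp, rfl⟩)
    · have h1 := psi_add_le (a • x) (b • y)
      rw [psi_smul ha, psi_smul hb] at h1
      have h2 := mul_le_mul_of_nonneg_left (v_ge_psi x) ha
      have h3 := mul_le_mul_of_nonneg_left (v_ge_psi y) hb
      simp only [smul_eq_mul]
      linarith
    · have h2 := mul_le_mul_of_nonneg_left (v_ge i p hp x) ha
      have h3 := mul_le_mul_of_nonneg_left (v_ge i p hp y) hb
      simp only [smul_eq_mul]
      have e : val i + dot p (a • x + b • y - z i)
          = a * (val i + dot p (x - z i)) + b * (val i + dot p (y - z i)) := by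
        rw [dot_sub, dot_add, dot_smul, dot_smul, dot_sub, dot_sub]
        have : b = 1 - a := by linarith
        subst this; ring
      linarith
  have hdisj0 : Pairwise (Function.onFun (AEDisjoint volume) K) := by
      intro i j hij
      have hne : z i ≠ z j := hz i j hij
      have hsub : K i ∩ K j ⊆ {p | dot p (z i - z j) = v (z i) - v (z j)} := by
        rintro p ⟨hp, hq⟩
        have h1 := sub i hp (z j)
        have h2 := sub j hq (z i)
        simp only [mem_ofPred_eq]
        rw [dot_sub] at *
        linarith
      have hnull : volume {p : R3 | dot p (z i - z j) = v (z i) - v (z j)} = 0 := by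
        set d := z i - z j with hd
        have hd0 : d ≠ 0 := sub_ne_zero.2 hne
        set c := v (z i) - v (z j) with hc
        let f : R3 →ₗ[ℝ] ℝ :=
          { toFun := fun p => dot p d
            map_add' := by intro p q; simp only [dot, Pi.add_apply]; ring
            map_smul' := by
              intro a p; simp only [dot, Pi.smul_apply, smul_eq_mul, RingHom.id_apply]; ring }
        have hf : LinearMap.ker f ≠ ⊤ := by
          intro h
          apply hd0
          have hall : ∀ p, f p = 0 := fun p => by
            have : p ∈ LinearMap.ker f := by rw [h]; trivial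
            exact this
          have h1 : dot d d = 0 := hall d
          simp only [dot] at h1
          have a0 : d 0 = 0 := by nlinarith [sq_nonneg (d 0), sq_nonneg (d 1), sq_nonneg (d 2)]
          have a1 : d 1 = 0 := by nlinarith [sq_nonneg (d 0), sq_nonneg (d 1), sq_nonneg (d 2)]
          have a2 : d 2 = 0 := by nlinarith [sq_nonneg (d 0), sq_nonneg (d 1), sq_nonneg (d 2)]
          ext m
          fin_cases m
          · exact a0
          · exact a1
          · exact a2
        by_cases hex : ∃ p0 : R3, dot p0 d = c
        · obtain ⟨p0, hp0⟩ := hex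
          have heq : {p : R3 | dot p d = c} = (fun p => p0 + p) '' (LinearMap.ker f : Set R3) := by
            ext p
            simp only [mem_ofPred_eq, mem_image, SetLike.mem_coe, LinearMap.mem_ker]
            constructor
            · intro hp
              refine ⟨p - p0, ?_, by abel⟩
              change dot (p - p0) d = 0
              have : dot (p - p0) d = dot p d - dot p0 d := by
                simp only [dot, Pi.sub_apply]; ring
              rw [this, hp, hp0, sub_self]
            · rintro ⟨q, hq, rfl⟩
              have hq' : dot q d = 0 := hq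
              have : dot (p0 + q) d = dot p0 d + dot q d := by
                simp only [dot, Pi.add_apply]; ring
              rw [this, hp0, hq', add_zero]
          rw [heq, Set.image_add_left, measure_preimage_add]
          exact Measure.addHaar_submodule _ _ hf
        · have : {p : R3 | dot p d = c} = ∅ := by
            ext p; simp only [mem_ofPred_eq, mem_empty_iff_false, iff_false]
            exact fun h => hex ⟨p, h⟩
          rw [this]; exact measure_empty
      exact measure_mono_null hsub hnull
  refine ⟨v, ⟨conv, A, ?_⟩, sub, hdisj0, ?_⟩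
  · intro x
    rw [abs_le]
    have := v_ge_psi x; have := v_le x
    constructor <;> linarith
  · intro E
    have hdisj : Pairwise (Function.onFun (AEDisjoint volume) (fun i : {i // z i ∈ E} => K i)) :=
      fun i j hij => hdisj0 (fun h => hij (Subtype.ext h))
    calc ∑' i : {i // z i ∈ E}, volume (K i)
        = volume (⋃ i : {i // z i ∈ E}, K i) :=
          (measure_iUnion₀ hdisj (fun i => (hKm i).nullMeasurableSet)).symm
      _ ≤ realMA v E := by
          apply measure_mono
          intro p hp
          simp only [mem_iUnion] at hp ⊢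
          obtain ⟨i, hi⟩ := hp
          exact ⟨z i, i.2, sub i hi⟩

end Pool.Agent.Kolodziej
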