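import Mathlib

/-!
One-dimensional convex states and the toppling operation.
-/

namespace Pool.Agent.Kolodziej

/-- Good states: convex, increasing, 1-Lipschitz functions above `c + x⁺`. -/
structure Good (c : ℝ) (U : ℝ → ℝ) : Prop where
  conv : ∀ x y a b, 0 ≤ a → 0 ≤ b → a + b = 1 → U (a * x + b * y) ≤ a * U x + b * U y
  mono : ∀ x y, x ≤ y → U x ≤ U y
  lip : ∀ x y, x ≤ y → U y - U x ≤ y - x
  base : ∀ x, c + max x 0 ≤ U x

/-- Half of the second difference. -/
noncomputable def rr (w : ℝ) (U : ℝ → ℝ) (x : ℝ) : ℝ := (U (x + w) + U (x - w)) / 2 - U x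

/-- The slope of the chord. -/
noncomputable def kap (w : ℝ) (U : ℝ → ℝ) (x : ℝ) : ℝ := (U (x + w) - U (x - w)) / (2 * w)

/-- Toppling at `x`: replace `U` on `[x-w, x+w]` by the chord. -/
noncomputable def topple (w : ℝ) (U : ℝ → ℝ) (x : ℝ) : ℝ → ℝ :=
  fun ξ => max (U ξ) (U x + rr w U x + kap w U x * (ξ - x))

variable {c w : ℝ} {U : ℝ → ℝ}

lemma Good.conv3 (h : Good c U) {x y z : ℝ} (hxy : x < y) (hyz : y < z) :
    (z - x) * U y ≤ (z - y) * U x + (y - x) * U z := by
  have hxz : 0 < z - x := by linarith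
  have h1 := h.conv x z ((z - y) / (z - x)) ((y - x) / (z - x))
    (by apply div_nonneg <;> linarith) (by apply div_nonneg <;> linarith)
    (by field_simp; ring)
  have e : (z - y) / (z - x) * x + (y - x) / (z - x) * z = y := by
    field_simp; ring
  rw [e] at h1
  have h2 := mul_le_mul_of_nonneg_left h1 hxz.le
  have e2 : (z - x) * ((z - y) / (z - x) * U x + (y - x) / (z - x) * U z)
      = (z - y) * U x + (y - x) * U z := by
    field_simp
  linarith

lemma rr_nonneg (hw : 0 < w) (h : Good c U) (x : ℝ) : 0 ≤ rr w U x := by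
  have := h.conv3 (x := x - w) (y := x) (z := x + w) (by linarith) (by linarith)
  unfold rr
  nlinarith

lemma rr_le (hw : 0 < w) (h : Good c U) (x : ℝ) : rr w U x ≤ w / 2 := by
  have h1 := h.lip x (x + w) (by linarith)
  have h2 := h.mono (x - w) x (by linarith)
  unfold rr
  linarith

lemma kap_sub (hw : 0 < w) (x : ℝ) : kap w U x - rr w U x / w = (U x - U (x - w)) / w := by
  unfold kap rr; field_simp; ring

lemma kap_add (hw : 0 < w) (x : ℝ) : kap w U x + rr w U x / w = (U (x + w) - U x) / w := by
  unfold kap rr; field_simp; ring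

lemma kap_sub_nonneg (hw : 0 < w) (h : Good c U) (x : ℝ) : 0 ≤ kap w U x - rr w U x / w := by
  rw [kap_sub hw]
  apply div_nonneg _ hw.le
  have := h.mono (x - w) x (by linarith)
  linarith

lemma kap_add_le (hw : 0 < w) (h : Good c U) (x : ℝ) : kap w U x + rr w U x / w ≤ 1 := by
  rw [kap_add hw, div_le_one hw]
  have := h.lip x (x + w) (by linarith)
  linarith

lemma kap_nonneg (hw : 0 < w) (h : Good c U) (x : ℝ) : 0 ≤ kap w U x := by
  have := kap_sub_nonneg hw h x
  have h2 : 0 ≤ rr w U x / w := div_nonneg (rr_nonneg hw h x) hw.le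
  linarith

lemma kap_le (hw : 0 < w) (h : Good c U) (x : ℝ) : kap w U x ≤ 1 := by
  have := kap_add_le hw h x
  have h2 : 0 ≤ rr w U x / w := div_nonneg (rr_nonneg hw h x) hw.le
  linarith

lemma vshape (hw : 0 < w) (h : Good c U) (x ξ : ℝ) (hξ : w ≤ |ξ - x|) :
    U x + kap w U x * (ξ - x) + rr w U x * |ξ - x| / w ≤ U ξ := by
  rcases le_total x ξ with hx | hx
  · rw [abs_of_nonneg (by linarith)] at hξ ⊢
    have e : U x + kap w U x * (ξ - x) + rr w U x * (ξ - x) / w
        = U x + (U (x + w) - U x) / w * (ξ - x) := by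
      rw [← kap_add hw]; ring
    rw [e]
    rcases hξ.eq_or_lt with heq | hlt
    · have : ξ = x + w := by linarith
      subst this
      have : (U (x + w) - U x) / w * (x + w - x) = U (x + w) - U x := by field_simp; ring
      linarith
    · have h1 := h.conv3 (x := x) (y := x + w) (z := ξ) (by linarith) (by linarith)
      have h2 : w * (U x + (U (x + w) - U x) / w * (ξ - x)) ≤ w * U ξ := by
        have : w * (U x + (U (x + w) - U x) / w * (ξ - x))
          = w * U x + (U (x + w) - U x) * (ξ - x) := by field_simp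
        rw [this]; nlinarith
      exact le_of_mul_le_mul_left h2 hw
  · rw [abs_of_nonpos (by linarith)] at hξ ⊢
    have e : U x + kap w U x * (ξ - x) + rr w U x * -(ξ - x) / w
        = U x + (U x - U (x - w)) / w * (ξ - x) := by
      rw [← kap_sub hw]; ring
    rw [e]
    rcases hξ.eq_or_lt with heq | hlt
    · have : ξ = x - w := by linarith
      subst this
      have : (U x - U (x - w)) / w * (x - w - x) = -(U x - U (x - w)) := by field_simp; ring
      linarith
    · have h1 := h.conv3 (x := ξ) (y := x - w) (z := x) (by linarith) (by linarith)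
      have h2 : w * (U x + (U x - U (x - w)) / w * (ξ - x)) ≤ w * U ξ := by
        have : w * (U x + (U x - U (x - w)) / w * (ξ - x))
          = w * U x + (U x - U (x - w)) * (ξ - x) := by field_simp
        rw [this]; nlinarith
      exact le_of_mul_le_mul_left h2 hw

lemma line_le (hw : 0 < w) (h : Good c U) (x ξ : ℝ) (hξ : w ≤ |ξ - x|) :
    U x + rr w U x + kap w U x * (ξ - x) ≤ U ξ := by
  have h1 := vshape hw h x ξ hξ
  have h2 : rr w U x ≤ rr w U x * |ξ - x| / w := by
    rw [le_div_iff₀ hw]
    exact mul_le_mul_of_nonneg_left hξ (rr_nonneg hw h x)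
  linarith

lemma le_topple (x ξ : ℝ) : U ξ ≤ topple w U x ξ := le_max_left _ _

lemma topple_far (hw : 0 < w) (h : Good c U) (x ξ : ℝ) (hξ : w ≤ |ξ - x|) :
    topple w U x ξ = U ξ := max_eq_left (line_le hw h x ξ hξ)

lemma topple_self (hw : 0 < w) (h : Good c U) (x : ℝ) :
    topple w U x x = U x + rr w U x := by
  unfold topple
  rw [sub_self, mul_zero, add_zero]
  apply max_eq_right
  have := rr_nonneg hw h x
  linarith

lemma cone_le_topple (hw : 0 < w) (h : Good c U) (x ξ : ℝ) :
    U x + kap w U x * (ξ - x) + rr w U x * |ξ - x| / (2 * w) + rr w U x / 2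
      ≤ topple w U x ξ := by
  have hr := rr_nonneg hw h x
  rcases le_total w |ξ - x| with hξ | hξ
  · refine le_trans ?_ (le_topple x ξ)
    have h1 := vshape hw h x ξ hξ
    have h2 : rr w U x ≤ rr w U x * |ξ - x| / w := by
      rw [le_div_iff₀ hw]
      exact mul_le_mul_of_nonneg_left hξ hr
    have e : rr w U x * |ξ - x| / (2 * w) = rr w U x * |ξ - x| / w / 2 := by
      field_simp
    rw [e]; linarith
  · refine le_trans ?_ (le_max_right _ _)
    have h2 : rr w U x * |ξ - x| / (2 * w) ≤ rr w U x / 2 := by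
      rw [div_le_div_iff₀ (by positivity) (by norm_num)]
      nlinarith
    linarith

lemma Good.topple (hw : 0 < w) (h : Good c U) (x : ℝ) : Good c (topple w U x) where
  conv := by
    intro y z a b ha hb hab
    have hk := kap_nonneg hw h x
    apply max_le
    · refine le_trans (h.conv y z a b ha hb hab) ?_
      exact add_le_add (mul_le_mul_of_nonneg_left (le_max_left _ _) ha)
        (mul_le_mul_of_nonneg_left (le_max_left _ _) hb)
    · have e : U x + rr w U x + kap w U x * (a * y + b * z - x)
          = a * (U x + rr w U x + kap w U x * (y - x))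
            + b * (U x + rr w U x + kap w U x * (z - x)) := by
        have : b = 1 - a := by linarith
        subst this; ring
      rw [e]
      exact add_le_add (mul_le_mul_of_nonneg_left (le_max_right _ _) ha)
        (mul_le_mul_of_nonneg_left (le_max_right _ _) hb)
  mono := by
    intro y z hyz
    have hk := kap_nonneg hw h x
    apply max_le_max (h.mono y z hyz)
    have : kap w U x * (y - x) ≤ kap w U x * (z - x) :=
      mul_le_mul_of_nonneg_left (by linarith) hk
    linarith
  lip := by
    intro y z hyz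
    have hk := kap_nonneg hw h x
    have hk1 := kap_le hw h x
    have h1 : Pool.Agent.Kolodziej.topple w U x z ≤ Pool.Agent.Kolodziej.topple w U x y + (z - y) := by
      apply max_le
      · have := h.lip y z hyz
        have h2 : U y ≤ Pool.Agent.Kolodziej.topple w U x y := le_max_left _ _
        linarith
      · have h2 : U x + rr w U x + kap w U x * (y - x) ≤ Pool.Agent.Kolodziej.topple w U x y :=
          le_max_right _ _
        have h3 : kap w U x * (z - y) ≤ 1 * (z - y) :=
          mul_le_mul_of_nonneg_right hk1 (by linarith)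
        nlinarith
    linarith
  base := fun ξ => le_trans (h.base ξ) (le_max_left _ _)

/-- The initial state. -/
lemma good_init (c : ℝ) : Good c (fun x => c + max x 0) where
  conv := by
    intro x y a b ha hb hab
    have h1 : max (a * x + b * y) 0 ≤ a * max x 0 + b * max y 0 := by
      apply max_le
      · exact add_le_add (mul_le_mul_of_nonneg_left (le_max_left _ _) ha)
          (mul_le_mul_of_nonneg_left (le_max_left _ _) hb)
      · have := mul_nonneg ha (le_max_right x 0)
        have := mul_nonneg hb (le_max_right y 0)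
        linarith
    have : c = a * c + b * c := by rw [← add_mul, hab, one_mul]
    show c + max (a * x + b * y) 0 ≤ a * (c + max x 0) + b * (c + max y 0)
    linarith
  mono := by
    intro x y hxy
    show c + max x 0 ≤ c + max y 0
    have := max_le_max_right 0 hxy
    linarith
  lip := by
    intro x y hxy
    show c + max y 0 - (c + max x 0) ≤ y - x
    have : max y 0 ≤ max x 0 + (y - x) := by
      apply max_le
      · have := le_max_left x 0; linarith
      · have := le_max_right x 0; linarith
    linarith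
  base := fun x => le_rfl

/-- The maximum excess is at `0`. -/
lemma Good.le_zero (h : Good c U) (x : ℝ) : U x - max x 0 ≤ U 0 := by
  rcases le_total 0 x with hx | hx
  · rw [max_eq_left hx]
    have := h.lip 0 x hx
    linarith
  · rw [max_eq_right hx]
    have := h.mono x 0 hx
    linarith

/-- The lattice mass bound. -/
lemma Good.bound {R : ℕ} (hR : 0 < R) (h : Good c U) {T : ℝ} (hT : T ≤ 2)
    (hs : ∑ i ∈ Finset.Icc (-(R : ℤ)) R,
      (U ((i : ℝ) * (1 / (R : ℝ) ^ 2)) - (c + max ((i : ℝ) * (1 / (R : ℝ) ^ 2)) 0)) ≤ T) (x : ℝ) :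
    U x ≤ c + 2 / R + max x 0 := by
  have hR' : (0 : ℝ) < R := by exact_mod_cast hR
  have hR1 : (1 : ℝ) ≤ R := by exact_mod_cast hR
  set w : ℝ := 1 / (R : ℝ) ^ 2 with hw
  have hw0 : 0 < w := by positivity
  have hterm : ∀ i ∈ Finset.Icc (-(R : ℤ)) R,
      U 0 - c - 1 / R ≤ U ((i : ℝ) * w) - (c + max ((i : ℝ) * w) 0) := by
    intro i hi
    rw [Finset.mem_Icc] at hi
    have h1 : (-(R : ℝ)) ≤ i := by exact_mod_cast hi.1
    have h2 : (i : ℝ) ≤ R := by exact_mod_cast hi.2
    have hRw : (R : ℝ) * w = 1 / R := by rw [hw]; field_simp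
    rcases le_total 0 (i : ℝ) with h0 | h0
    · have hiw : 0 ≤ (i : ℝ) * w := by positivity
      rw [max_eq_left hiw]
      have h3 := h.mono 0 ((i : ℝ) * w) hiw
      have h4 : (i : ℝ) * w ≤ R * w := mul_le_mul_of_nonneg_right h2 hw0.le
      linarith
    · have hiw : (i : ℝ) * w ≤ 0 := by nlinarith
      rw [max_eq_right hiw]
      have h3 := h.lip ((i : ℝ) * w) 0 hiw
      have h4 : -(R : ℝ) * w ≤ (i : ℝ) * w := mul_le_mul_of_nonneg_right h1 hw0.le
      linarith
  have hsum := Finset.sum_le_sum hterm
  rw [Finset.sum_const, nsmul_eq_mul] at hsum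
  have hcard : ((Finset.Icc (-(R : ℤ)) R).card : ℝ) = 2 * R + 1 := by
    rw [Int.card_Icc]
    have : ((R : ℤ) + 1 - -(R : ℤ)).toNat = 2 * R + 1 := by omega
    rw [this]; push_cast; ring
  rw [hcard] at hsum
  have h5 : (2 * (R : ℝ) + 1) * (U 0 - c - 1 / R) ≤ 2 := le_trans hsum (le_trans hs hT)
  have h6 : U 0 - c - 1 / R ≤ 1 / R := by
    by_contra hcon
    push Not at hcon
    have h7 : (2 * (R : ℝ) + 1) * (1 / R) < (2 * (R : ℝ) + 1) * (U 0 - c - 1 / R) :=
      mul_lt_mul_of_pos_left hcon (by positivity)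
    have h8 : (2 * (R : ℝ) + 1) * (1 / R) = 2 + 1 / R := by field_simp
    have h9 : 0 < 1 / (R : ℝ) := by positivity
    linarith
  have h10 := h.le_zero x
  have h11 : 2 / (R : ℝ) = 1 / R + 1 / R := by ring
  linarith

/-- The lattice mass increases by at most `rr` under toppling. -/
lemma sum_topple_le (hw : 0 < w) (h : Good c U) (j : ℤ) (S : Finset ℤ) {T : ℝ}
    (hs : ∑ i ∈ S, (U ((i : ℝ) * w) - (c + max ((i : ℝ) * w) 0)) ≤ T) :
    ∑ i ∈ S, (topple w U ((j : ℝ) * w) ((i : ℝ) * w) - (c + max ((i : ℝ) * w) 0))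
      ≤ T + rr w U ((j : ℝ) * w) := by
  classical
  have hr := rr_nonneg hw h ((j : ℝ) * w)
  have hterm : ∀ i ∈ S, topple w U ((j : ℝ) * w) ((i : ℝ) * w) - (c + max ((i : ℝ) * w) 0)
      ≤ (U ((i : ℝ) * w) - (c + max ((i : ℝ) * w) 0))
        + (if i = j then rr w U ((j : ℝ) * w) else 0) := by
    intro i _
    split_ifs with hij
    · subst hij
      rw [topple_self hw h]; linarith
    · rw [topple_far hw h]
      · linarith
      · have : (1 : ℝ) ≤ |((i - j : ℤ) : ℝ)| := by
          have h1 : 1 ≤ |i - j| := Int.one_le_abs (sub_ne_zero.2 hij)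
          exact_mod_cast h1
        have e : (i : ℝ) * w - (j : ℝ) * w = ((i - j : ℤ) : ℝ) * w := by push_cast; ring
        rw [e, abs_mul, abs_of_pos hw]
        nlinarith
  refine le_trans (Finset.sum_le_sum hterm) ?_
  rw [Finset.sum_add_distrib]
  have : ∑ i ∈ S, (if i = j then rr w U ((j : ℝ) * w) else 0) ≤ rr w U ((j : ℝ) * w) := by
    rw [Finset.sum_ite_eq']
    split_ifs
    · exact le_rfl
    · exact hr
  linarith

end Pool.Agent.Kolodziej
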