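import Mathlib
import Pool.Agent.Kolodziej.Basic
import Pool.Agent.Kolodziej.States

/-!
The binary tree of topplings: expected raise, positions of the atoms.
-/

namespace Pool.Agent.Kolodziej

open MeasureTheory Set

/-- The expected total raise along the random walk of topplings. -/
noncomputable def GG (w : ℝ) (K : ℕ) : ℕ → (ℝ → ℝ) → ℝ → ℤ → ℝ
  | 0, _, _, _ => 0
  | n + 1, U, T, j =>
    open Classical in
    if 1 ≤ T ∨ (K : ℤ) ≤ |j| then 0 else
      rr w U (j * w) +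
        (GG w K n (topple w U (j * w)) (T + rr w U (j * w)) (j + 1) +
          GG w K n (topple w U (j * w)) (T + rr w U (j * w)) (j - 1)) / 2

lemma GG_ge {w c : ℝ} {K : ℕ} (hw : 0 < w) (hK : w * K = 10) {D : ℝ} (hD : 0 < D) (n : ℕ) :
    ∀ (U : ℝ → ℝ) (T : ℝ) (j : ℤ), Good c U → 0 ≤ T → T ≤ 1 + w / 2 → |j| ≤ K → (n : ℝ) ≤ D →
      1 - T - (1 / 5) * (U (j * w) - c - j * w / 2 - T + 1 + w / 2)
        - (D - n + (K : ℝ) ^ 2 - (j : ℝ) ^ 2) / D ≤ GG w K n U T j := by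
  have hK0 : (0 : ℝ) ≤ K := Nat.cast_nonneg K
  induction n with
  | zero =>
    intro U T j hU hT0 hT1 hj _
    have hjr : |(j : ℝ)| ≤ K := by exact_mod_cast hj
    have hj2 : (j : ℝ) ^ 2 ≤ (K : ℝ) ^ 2 := by
      rw [← sq_abs (j : ℝ)]; exact pow_le_pow_left₀ (abs_nonneg _) hjr 2
    have hb := hU.base (j * w)
    have h1 : (j : ℝ) * w / 2 ≤ max ((j : ℝ) * w) 0 := by
      rcases le_total 0 ((j : ℝ) * w) with h | h
      · rw [max_eq_left h]; linarith
      · rw [max_eq_right h]; linarith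
    have h3 : 1 ≤ (D - ((0 : ℕ) : ℝ) + (K : ℝ) ^ 2 - (j : ℝ) ^ 2) / D := by
      rw [le_div_iff₀ hD]; push_cast; linarith
    simp only [GG]
    linarith
  | succ n ih =>
    intro U T j hU hT0 hT1 hj hn
    have hjr : |(j : ℝ)| ≤ K := by exact_mod_cast hj
    have hj2 : (j : ℝ) ^ 2 ≤ (K : ℝ) ^ 2 := by
      rw [← sq_abs (j : ℝ)]; exact pow_le_pow_left₀ (abs_nonneg _) hjr 2
    have hb := hU.base (j * w)
    have h3 : 0 ≤ (D - ((n + 1 : ℕ) : ℝ) + (K : ℝ) ^ 2 - (j : ℝ) ^ 2) / D := by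
      apply div_nonneg _ hD.le
      linarith
    rw [GG]
    split_ifs with hstop
    · rcases hstop with hT | hjK
      · have h1 : (j : ℝ) * w / 2 ≤ max ((j : ℝ) * w) 0 := by
          rcases le_total 0 ((j : ℝ) * w) with h | h
          · rw [max_eq_left h]; linarith
          · rw [max_eq_right h]; linarith
        linarith
      · have hjK' : (K : ℝ) ≤ |(j : ℝ)| := by exact_mod_cast hjK
        have h1 : (j : ℝ) * w / 2 + 5 ≤ max ((j : ℝ) * w) 0 := by
          have h2 : 10 ≤ |(j : ℝ)| * w := by nlinarith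
          rcases le_total 0 (j : ℝ) with h | h
          · rw [abs_of_nonneg h] at h2
            rw [max_eq_left (by positivity)]; linarith
          · rw [abs_of_nonpos h] at h2
            have : (j : ℝ) * w ≤ 0 := by nlinarith
            rw [max_eq_right this]; linarith
        linarith
    · push Not at hstop
      obtain ⟨hT, hjK⟩ := hstop
      have hr0 := rr_nonneg hw hU (j * w)
      have hr1 := rr_le hw hU (j * w)
      have hU' := hU.topple hw (j * w)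
      have hn' : (n : ℝ) ≤ D := by push_cast at hn; linarith
      have hj1 : |j + 1| ≤ K := by
        have := abs_lt.1 hjK
        rw [abs_le]; constructor <;> linarith [this.1, this.2]
      have hj2' : |j - 1| ≤ K := by
        have := abs_lt.1 hjK
        rw [abs_le]; constructor
        · have := this.1; omega
        · have := this.2; omega
      have i1 := ih (topple w U (j * w)) (T + rr w U (j * w)) (j + 1) hU' (by linarith)
        (by linarith) hj1 hn'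
      have i2 := ih (topple w U (j * w)) (T + rr w U (j * w)) (j - 1) hU' (by linarith)
        (by linarith) hj2' hn'
      have e1 : topple w U (j * w) (((j + 1 : ℤ) : ℝ) * w) = U (j * w + w) := by
        rw [topple_far hw hU]
        · congr 1; push_cast; ring
        · have : ((j + 1 : ℤ) : ℝ) * w - j * w = w := by push_cast; ring
          rw [this, abs_of_pos hw]
      have e2 : topple w U (j * w) (((j - 1 : ℤ) : ℝ) * w) = U (j * w - w) := by
        rw [topple_far hw hU]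
        · congr 1; push_cast; ring
        · have : ((j - 1 : ℤ) : ℝ) * w - j * w = -w := by push_cast; ring
          rw [this, abs_neg, abs_of_pos hw]
      rw [e1] at i1
      rw [e2] at i2
      have hrdef : U (j * w + w) + U (j * w - w) = 2 * (rr w U (j * w) + U (j * w)) := by
        unfold rr; ring
      have esum : (D - n + (K : ℝ) ^ 2 - ((j + 1 : ℤ) : ℝ) ^ 2) / D
          + (D - n + (K : ℝ) ^ 2 - ((j - 1 : ℤ) : ℝ) ^ 2) / D
          = 2 * ((D - ((n + 1 : ℕ) : ℝ) + (K : ℝ) ^ 2 - (j : ℝ) ^ 2) / D) := by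
        push_cast; field_simp; ring
      push_cast at i1 i2 esum ⊢
      linarith

/-- Atoms: a state, a position and a width. -/
structure Atom where
  U : ℝ → ℝ
  x : ℝ
  w : ℝ
  q1 : ℝ
  q2 : ℝ

namespace Atom

noncomputable def r (a : Atom) : ℝ := rr a.w a.U a.x
noncomputable def k (a : Atom) : ℝ := kap a.w a.U a.x
noncomputable def z (a : Atom) : R3 := ![a.x, -a.q1, -a.q2]
noncomputable def val (a : Atom) : ℝ := a.U a.x
noncomputable def post (a : Atom) : ℝ → ℝ := topple a.w a.U a.x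
noncomputable def box (a : Atom) : Set R3 :=
  Icc ![a.k - a.r / (2 * a.w), a.r / (8 * a.q1), a.r / (8 * a.q2)]
    ![a.k + a.r / (2 * a.w), a.r / (4 * a.q1), a.r / (4 * a.q2)]

/-- Regular atoms. -/
structure Reg (c : ℝ) (a : Atom) : Prop where
  hw : 0 < a.w
  good : Good c a.U
  q1pos : 0 < a.q1
  q2pos : 0 < a.q2
  rpos : 0 < a.r

lemma mem_box {a : Atom} {p : R3} (hp : p ∈ a.box) :
    (a.k - a.r / (2 * a.w) ≤ p 0 ∧ p 0 ≤ a.k + a.r / (2 * a.w)) ∧
    (a.r / (8 * a.q1) ≤ p 1 ∧ p 1 ≤ a.r / (4 * a.q1)) ∧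
    (a.r / (8 * a.q2) ≤ p 2 ∧ p 2 ≤ a.r / (4 * a.q2)) := by
  obtain ⟨h1, h2⟩ := hp
  have a0 := h1 0; have a1 := h1 1; have a2 := h1 2
  have b0 := h2 0; have b1 := h2 1; have b2 := h2 2
  simp at a0 a1 a2 b0 b1 b2
  exact ⟨⟨by linarith, by linarith⟩, ⟨a1, b1⟩, ⟨a2, b2⟩⟩

lemma volume_box {c : ℝ} {a : Atom} (ha : Reg c a) :
    volume a.box = ENNReal.ofReal (a.r ^ 3 / (64 * a.w * a.q1 * a.q2)) := by
  have hw := ha.hw; have h1 := ha.q1pos; have h2 := ha.q2pos; have hr := ha.rpos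
  unfold box
  rw [Real.volume_Icc_pi, Fin.prod_univ_three]
  simp only [Matrix.cons_val_zero, Matrix.cons_val_one, Matrix.cons_val]
  rw [← ENNReal.ofReal_mul, ← ENNReal.ofReal_mul]
  · congr 1
    field_simp
    ring
  · apply mul_nonneg
    · have : 0 ≤ a.r / (2 * a.w) := by positivity
      linarith
    · have : a.r / (4 * a.q1) - a.r / (8 * a.q1) = a.r / (8 * a.q1) := by field_simp; ring
      rw [this]; positivity
  · have : 0 ≤ a.r / (2 * a.w) := by positivity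
    linarith

/-- Slopes of the boxes. -/
lemma box_slope {c : ℝ} {a : Atom} (ha : Reg c a) (h1 : a.r ≤ 4 * a.q1) (h2 : a.r ≤ 4 * a.q2)
    {p : R3} (hp : p ∈ a.box) (m : Fin 3) : 0 ≤ p m ∧ p m ≤ 1 := by
  obtain ⟨⟨p0, p0'⟩, ⟨p1, p1'⟩, ⟨p2, p2'⟩⟩ := mem_box hp
  have hw := ha.hw; have hq1 := ha.q1pos; have hq2 := ha.q2pos; have hr := ha.rpos
  have k0 := kap_sub_nonneg hw ha.good a.x
  have k1 := kap_add_le hw ha.good a.x
  change 0 ≤ a.k - a.r / a.w at k0
  change a.k + a.r / a.w ≤ 1 at k1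
  have e : a.r / (2 * a.w) = a.r / a.w / 2 := by field_simp
  have hpos : 0 ≤ a.r / a.w := by positivity
  fin_cases m
  · show 0 ≤ p 0 ∧ p 0 ≤ 1
    constructor <;> linarith
  · show 0 ≤ p 1 ∧ p 1 ≤ 1
    have : 0 ≤ a.r / (8 * a.q1) := by positivity
    have h3 : a.r / (4 * a.q1) ≤ 1 := by rw [div_le_one (by positivity)]; exact h1
    constructor <;> linarith
  · show 0 ≤ p 2 ∧ p 2 ≤ 1
    have : 0 ≤ a.r / (8 * a.q2) := by positivity
    have h3 : a.r / (4 * a.q2) ≤ 1 := by rw [div_le_one (by positivity)]; exact h2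
    constructor <;> linarith

lemma dot_sub_z (a : Atom) (p : R3) (ξ y1 y2 : ℝ) :
    dot p (![ξ, -y1, -y2] - a.z) = p 0 * (ξ - a.x) + p 1 * (a.q1 - y1) + p 2 * (a.q2 - y2) := by
  simp only [dot, z, Pi.sub_apply, Matrix.cons_val_zero, Matrix.cons_val_one, Matrix.cons_val]
  ring

/-- The cone over an atom lies below the state after toppling. -/
lemma cone_le_post {c : ℝ} {a : Atom} (ha : Reg c a) {p : R3} (hp : p ∈ a.box) (ξ y1 y2 : ℝ)
    (hy1 : 0 ≤ y1) (hy2 : 0 ≤ y2) :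
    a.val + dot p (![ξ, -y1, -y2] - a.z) ≤ a.post ξ := by
  obtain ⟨⟨p0, p0'⟩, ⟨p1, p1'⟩, ⟨p2, p2'⟩⟩ := mem_box hp
  have hw := ha.hw; have hq1 := ha.q1pos; have hq2 := ha.q2pos; have hr := ha.rpos
  have h1 := cone_le_topple hw ha.good a.x ξ
  change a.val + a.k * (ξ - a.x) + a.r * |ξ - a.x| / (2 * a.w) + a.r / 2 ≤ a.post ξ at h1
  rw [dot_sub_z]
  have hp1 : 0 ≤ p 1 := le_trans (by positivity) p1
  have hp2 : 0 ≤ p 2 := le_trans (by positivity) p2
  have h2 : p 1 * (a.q1 - y1) ≤ a.r / 4 := by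
    have : p 1 * a.q1 ≤ a.r / (4 * a.q1) * a.q1 := mul_le_mul_of_nonneg_right p1' hq1.le
    have e : a.r / (4 * a.q1) * a.q1 = a.r / 4 := by field_simp
    nlinarith [mul_nonneg hp1 hy1]
  have h3 : p 2 * (a.q2 - y2) ≤ a.r / 4 := by
    have : p 2 * a.q2 ≤ a.r / (4 * a.q2) * a.q2 := mul_le_mul_of_nonneg_right p2' hq2.le
    have e : a.r / (4 * a.q2) * a.q2 = a.r / 4 := by field_simp
    nlinarith [mul_nonneg hp2 hy2]
  have h4 : p 0 * (ξ - a.x) ≤ a.k * (ξ - a.x) + a.r * |ξ - a.x| / (2 * a.w) := by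
    have e : a.r * |ξ - a.x| / (2 * a.w) = a.r / (2 * a.w) * |ξ - a.x| := by ring
    rw [e]
    rcases le_total 0 (ξ - a.x) with h | h
    · rw [abs_of_nonneg h]; nlinarith
    · rw [abs_of_nonpos h]; nlinarith
  linarith

/-- Far outside the cone over an atom is negative. -/
lemma cone_kill {c : ℝ} {a : Atom} (ha : Reg c a) {p : R3} (hp : p ∈ a.box) (ξ y1 y2 : ℝ)
    (hy1 : 0 ≤ y1) (hy2 : 0 ≤ y2) (h1 : a.r ≤ 4 * a.q1) (h2 : a.r ≤ 4 * a.q2)
    (hr4 : a.r ≤ 4) (hval : a.val ≤ 13) (hx : |a.x| ≤ 10) (hξ : |ξ| ≤ 10) {L : ℝ} (hL1 : 1 ≤ L)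
    (hL : 272 ≤ a.r * (L - 1)) (hy : L * a.q1 ≤ y1 ∨ L * a.q2 ≤ y2) :
    a.val + dot p (![ξ, -y1, -y2] - a.z) ≤ 0 := by
  obtain ⟨s0, s0'⟩ := box_slope ha h1 h2 hp 0
  obtain ⟨⟨p0, p0'⟩, ⟨p1, p1'⟩, ⟨p2, p2'⟩⟩ := mem_box hp
  have hw := ha.hw; have hq1 := ha.q1pos; have hq2 := ha.q2pos; have hr := ha.rpos
  rw [dot_sub_z]
  have hp1 : 0 ≤ p 1 := le_trans (by positivity) p1
  have hp2 : 0 ≤ p 2 := le_trans (by positivity) p2
  have g1 : p 1 * (a.q1 - y1) ≤ a.r / 4 := by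
    have : p 1 * a.q1 ≤ a.r / (4 * a.q1) * a.q1 := mul_le_mul_of_nonneg_right p1' hq1.le
    have e : a.r / (4 * a.q1) * a.q1 = a.r / 4 := by field_simp
    nlinarith [mul_nonneg hp1 hy1]
  have g2 : p 2 * (a.q2 - y2) ≤ a.r / 4 := by
    have : p 2 * a.q2 ≤ a.r / (4 * a.q2) * a.q2 := mul_le_mul_of_nonneg_right p2' hq2.le
    have e : a.r / (4 * a.q2) * a.q2 = a.r / 4 := by field_simp
    nlinarith [mul_nonneg hp2 hy2]
  have g0 : p 0 * (ξ - a.x) ≤ 20 := by
    have := abs_le.1 hx; have := abs_le.1 hξ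
    nlinarith
  rcases hy with hy | hy
  · have g3 : p 1 * (a.q1 - y1) ≤ -34 := by
      have h5 : a.q1 - y1 ≤ -((L - 1) * a.q1) := by linarith
      have h6 : 0 ≤ (L - 1) * a.q1 := mul_nonneg (by linarith) hq1.le
      have h7 : p 1 * (a.q1 - y1) ≤ p 1 * -((L - 1) * a.q1) := mul_le_mul_of_nonneg_left h5 hp1
      have h8 : a.r / (8 * a.q1) * ((L - 1) * a.q1) ≤ p 1 * ((L - 1) * a.q1) :=
        mul_le_mul_of_nonneg_right p1 h6
      have e : a.r / (8 * a.q1) * ((L - 1) * a.q1) = a.r * (L - 1) / 8 := by field_simp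
      nlinarith
    linarith
  · have g3 : p 2 * (a.q2 - y2) ≤ -34 := by
      have h5 : a.q2 - y2 ≤ -((L - 1) * a.q2) := by linarith
      have h6 : 0 ≤ (L - 1) * a.q2 := mul_nonneg (by linarith) hq2.le
      have h7 : p 2 * (a.q2 - y2) ≤ p 2 * -((L - 1) * a.q2) := mul_le_mul_of_nonneg_left h5 hp2
      have h8 : a.r / (8 * a.q2) * ((L - 1) * a.q2) ≤ p 2 * ((L - 1) * a.q2) :=
        mul_le_mul_of_nonneg_right p2 h6
      have e : a.r / (8 * a.q2) * ((L - 1) * a.q2) = a.r * (L - 1) / 8 := by field_simp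
      nlinarith
    linarith

end Atom

end Pool.Agent.Kolodziej
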