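import Mathlib
import Pool.Agent.Kolodziej.Tree

/-!
The set of atoms of one block and their mutual positions.
-/

namespace Pool.Agent.Kolodziej

open MeasureTheory Set

/-- The atoms of the block with `n` remaining steps. -/
noncomputable def atoms (w : ℝ) (K : ℕ) (L : ℝ) :
    ℕ → (ℝ → ℝ) → ℝ → ℤ → ℝ → ℝ → Set Atom
  | 0, _, _, _, _, _ => ∅
  | n + 1, U, T, j, q1, q2 =>
    {a | ¬ (1 ≤ T ∨ (K : ℤ) ≤ |j|) ∧
      ((0 < rr w U (j * w) ∧ a = ⟨U, j * w, w, q1, q2⟩) ∨
        a ∈ atoms w K L n (topple w U (j * w)) (T + rr w U (j * w)) (j + 1)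
          (q1 / L ^ (3 ^ (n + 1))) (q2 / L) ∨
        a ∈ atoms w K L n (topple w U (j * w)) (T + rr w U (j * w)) (j - 1)
          (q1 / L) (q2 / L ^ (3 ^ (n + 1))))}

lemma mem_atoms_succ {w : ℝ} {K : ℕ} {L : ℝ} {n : ℕ} {U : ℝ → ℝ} {T : ℝ} {j : ℤ} {q1 q2 : ℝ}
    {a : Atom} : a ∈ atoms w K L (n + 1) U T j q1 q2 ↔ ¬ (1 ≤ T ∨ (K : ℤ) ≤ |j|) ∧
      ((0 < rr w U (j * w) ∧ a = ⟨U, j * w, w, q1, q2⟩) ∨
        a ∈ atoms w K L n (topple w U (j * w)) (T + rr w U (j * w)) (j + 1)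
          (q1 / L ^ (3 ^ (n + 1))) (q2 / L) ∨
        a ∈ atoms w K L n (topple w U (j * w)) (T + rr w U (j * w)) (j - 1)
          (q1 / L) (q2 / L ^ (3 ^ (n + 1)))) := Iff.rfl

lemma atoms_finite (w : ℝ) (K : ℕ) (L : ℝ) (n : ℕ) :
    ∀ (U : ℝ → ℝ) (T : ℝ) (j : ℤ) (q1 q2 : ℝ), (atoms w K L n U T j q1 q2).Finite := by
  induction n with
  | zero => intro U T j q1 q2; exact Set.finite_empty
  | succ n ih =>
    intro U T j q1 q2
    refine Set.Finite.subset (((Set.finite_singleton (⟨U, j * w, w, q1, q2⟩ : Atom)).union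
      (ih (topple w U (j * w)) (T + rr w U (j * w)) (j + 1) (q1 / L ^ (3 ^ (n + 1))) (q2 / L))).union
      (ih (topple w U (j * w)) (T + rr w U (j * w)) (j - 1) (q1 / L) (q2 / L ^ (3 ^ (n + 1))))) ?_
    intro a ha
    rw [mem_atoms_succ] at ha
    rcases ha.2 with ⟨_, h⟩ | h | h
    · exact Or.inl (Or.inl h)
    · exact Or.inl (Or.inr h)
    · exact Or.inr h

/-- A positive lower bound for the raises of the atoms, independent of the positions. -/
lemma exists_rmin (w : ℝ) (K : ℕ) (n : ℕ) : ∀ (U : ℝ → ℝ) (T : ℝ) (j : ℤ),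
    ∃ ρ : ℝ, 0 < ρ ∧ ∀ (L q1 q2 : ℝ), ∀ a ∈ atoms w K L n U T j q1 q2, ρ ≤ a.r := by
  induction n with
  | zero =>
    intro U T j
    exact ⟨1, one_pos, fun L q1 q2 a ha => absurd ha (Set.notMem_empty a)⟩
  | succ n ih =>
    intro U T j
    obtain ⟨ρ1, h1, h1'⟩ := ih (topple w U (j * w)) (T + rr w U (j * w)) (j + 1)
    obtain ⟨ρ2, h2, h2'⟩ := ih (topple w U (j * w)) (T + rr w U (j * w)) (j - 1)
    refine ⟨min (if 0 < rr w U (j * w) then rr w U (j * w) else 1) (min ρ1 ρ2), ?_, ?_⟩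
    · apply lt_min _ (lt_min h1 h2)
      split_ifs with h
      · exact h
      · exact one_pos
    · intro L q1 q2 a ha
      rw [mem_atoms_succ] at ha
      rcases ha.2 with ⟨hr, rfl⟩ | h | h
      · refine le_trans (min_le_left _ _) ?_
        rw [if_pos hr]
        exact le_rfl
      · exact le_trans (min_le_right _ _) (le_trans (min_le_left _ _) (h1' _ _ _ _ h))
      · exact le_trans (min_le_right _ _) (le_trans (min_le_right _ _) (h2' _ _ _ _ h))

/-- The total exponent. -/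
def ee : ℕ → ℕ
  | 0 => 0
  | n + 1 => 3 ^ (n + 1) + ee n

lemma ee_eq (n : ℕ) : 2 * ee n + 3 = 3 ^ (n + 1) := by
  induction n with
  | zero => simp [ee]
  | succ n ih =>
    simp only [ee]
    have : 3 ^ (n + 1 + 1) = 3 * 3 ^ (n + 1) := by ring
    omega

/-- What we know about the atoms of a block. -/
structure InBlock (c : ℝ) (R : ℕ) (w : ℝ) (a : Atom) : Prop where
  reg : Atom.Reg c a
  w_eq : a.w = w
  pre_le : ∀ x, a.U x ≤ c + 2 / R + max x 0
  post_le : ∀ x, a.post x ≤ c + 2 / R + max x 0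
  x_le : |a.x| ≤ 10
  r_le : a.r ≤ w / 2

/-- The mass of a state. -/
def MassLe (c : ℝ) (R : ℕ) (w : ℝ) (U : ℝ → ℝ) (T : ℝ) : Prop :=
  ∑ i ∈ Finset.Icc (-(R : ℤ)) R, (U ((i : ℝ) * w) - (c + max ((i : ℝ) * w) 0)) ≤ T

lemma atoms_props {c w L : ℝ} {R K : ℕ} (hR : 0 < R) (hw : w = 1 / (R : ℝ) ^ 2)
    (hK : w * K = 10) (hL : 1 < L) (n : ℕ) :
    ∀ (U : ℝ → ℝ) (T : ℝ) (j : ℤ) (q1 q2 : ℝ), Good c U → MassLe c R w U T →
      0 < q1 → 0 < q2 → ∀ a ∈ atoms w K L n U T j q1 q2,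
      InBlock c R w a ∧ (∀ x, U x ≤ a.U x) ∧ a.q1 ≤ q1 ∧ a.q2 ≤ q2 ∧
        q1 / L ^ ee n ≤ a.q1 ∧ q2 / L ^ ee n ≤ a.q2 := by
  have hR' : (0 : ℝ) < R := by exact_mod_cast hR
  have hR1 : (1 : ℝ) ≤ R := by exact_mod_cast hR
  have hw0 : 0 < w := by rw [hw]; positivity
  have hw1 : w ≤ 1 := by
    rw [hw, div_le_one (by positivity)]; nlinarith
  have hL0 : 0 < L := by linarith
  induction n with
  | zero => intro U T j q1 q2 _ _ _ _ a ha; exact absurd ha (Set.notMem_empty a)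
  | succ n ih =>
    intro U T j q1 q2 hU hM hq1 hq2 a ha
    rw [mem_atoms_succ] at ha
    obtain ⟨hns, ha⟩ := ha
    push Not at hns
    obtain ⟨hT, hj⟩ := hns
    have hr0 := rr_nonneg hw0 hU (j * w)
    have hr1 := rr_le hw0 hU (j * w)
    have hU' := hU.topple hw0 (j * w)
    have hM' : MassLe c R w (topple w U (j * w)) (T + rr w U (j * w)) :=
      sum_topple_le hw0 hU j _ hM
    have hone : (1 : ℝ) ≤ L ^ 3 ^ (n + 1) := one_le_pow₀ hL.le
    have hpe : (1 : ℝ) ≤ L ^ ee n := one_le_pow₀ hL.le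
    have hLp : L ≤ L ^ 3 ^ (n + 1) := by
      calc L = L ^ 1 := (pow_one L).symm
        _ ≤ L ^ 3 ^ (n + 1) := pow_le_pow_right₀ hL.le (Nat.one_le_pow _ _ (by norm_num))
    rcases ha with ⟨hr, rfl⟩ | h | h
    · refine ⟨⟨⟨hw0, hU, hq1, hq2, hr⟩, rfl, ?_, ?_, ?_, hr1⟩, fun x => le_rfl, le_rfl, le_rfl,
        ?_, ?_⟩
      · intro x
        unfold MassLe at hM
        rw [hw] at hM
        exact hU.bound hR (by linarith : T ≤ 2) hM x
      · intro x
        unfold MassLe at hM'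
        have hT2 : T + rr w U (j * w) ≤ 2 := by linarith
        have hM2 := hM'
        rw [hw] at hM2
        have := (hU'.bound (U := topple w U (j * w)) hR hT2 (by
          rw [← hw]; exact hM') x)
        exact this
      · show |(j : ℝ) * w| ≤ 10
        rw [abs_mul, abs_of_pos hw0]
        have : |(j : ℝ)| ≤ K := by exact_mod_cast hj.le
        nlinarith
      · exact div_le_self hq1.le (one_le_pow₀ hL.le)
      · exact div_le_self hq2.le (one_le_pow₀ hL.le)
    · have hq1' : 0 < q1 / L ^ (3 ^ (n + 1)) := by positivity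
      have hq2' : 0 < q2 / L := by positivity
      obtain ⟨hb, hUU, a1, a2, a3, a4⟩ := ih _ _ _ _ _ hU' hM' hq1' hq2' a h
      refine ⟨hb, fun x => le_trans (le_topple _ _) (hUU x), ?_, ?_, ?_, ?_⟩
      · exact le_trans a1 (div_le_self hq1.le hone)
      · exact le_trans a2 (div_le_self hq2.le hL.le)
      · refine le_trans (le_of_eq ?_) a3
        rw [div_div, ← pow_add]; rfl
      · refine le_trans ?_ a4
        rw [div_div]
        apply div_le_div_of_nonneg_left hq2.le (by positivity)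
        have : L ^ ee (n + 1) = L ^ 3 ^ (n + 1) * L ^ ee n := by rw [← pow_add]; rfl
        rw [this]
        exact mul_le_mul_of_nonneg_right hLp (by positivity)
    · have hq1' : 0 < q1 / L := by positivity
      have hq2' : 0 < q2 / L ^ (3 ^ (n + 1)) := by positivity
      obtain ⟨hb, hUU, a1, a2, a3, a4⟩ := ih _ _ _ _ _ hU' hM' hq1' hq2' a h
      refine ⟨hb, fun x => le_trans (le_topple _ _) (hUU x), ?_, ?_, ?_, ?_⟩
      · exact le_trans a1 (div_le_self hq1.le hL.le)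
      · exact le_trans a2 (div_le_self hq2.le hone)
      · refine le_trans ?_ a3
        rw [div_div]
        apply div_le_div_of_nonneg_left hq1.le (by positivity)
        have : L ^ ee (n + 1) = L ^ 3 ^ (n + 1) * L ^ ee n := by rw [← pow_add]; rfl
        rw [this]
        exact mul_le_mul_of_nonneg_right hLp (by positivity)
      · refine le_trans (le_of_eq ?_) a4
        rw [div_div, ← pow_add]; rfl

/-- The mutual position of two atoms. -/
def Rel (L : ℝ) (a b : Atom) : Prop :=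
  (∀ x, b.post x ≤ a.U x) ∨ L * b.q1 ≤ a.q1 ∨ L * b.q2 ≤ a.q2

lemma atoms_rel {c w L : ℝ} {R K : ℕ} (hR : 0 < R) (hw : w = 1 / (R : ℝ) ^ 2)
    (hK : w * K = 10) (hL : 1 < L) (n : ℕ) :
    ∀ (U : ℝ → ℝ) (T : ℝ) (j : ℤ) (q1 q2 : ℝ), Good c U → MassLe c R w U T →
      0 < q1 → 0 < q2 → ∀ a ∈ atoms w K L n U T j q1 q2, ∀ b ∈ atoms w K L n U T j q1 q2,
      a ≠ b → Rel L a b := by
  have hR' : (0 : ℝ) < R := by exact_mod_cast hR
  have hw0 : 0 < w := by rw [hw]; positivity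
  have hL0 : 0 < L := by linarith
  induction n with
  | zero => intro U T j q1 q2 _ _ _ _ a ha; exact absurd ha (Set.notMem_empty a)
  | succ n ih =>
    intro U T j q1 q2 hU hM hq1 hq2 a ha b hb hab
    rw [mem_atoms_succ] at ha hb
    have hU' := hU.topple hw0 (j * w)
    have hM' : MassLe c R w (topple w U (j * w)) (T + rr w U (j * w)) :=
      sum_topple_le hw0 hU j _ hM
    have hq1p : 0 < q1 / L ^ (3 ^ (n + 1)) := by positivity
    have hq2p : 0 < q2 / L := by positivity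
    have hq1m : 0 < q1 / L := by positivity
    have hq2m : 0 < q2 / L ^ (3 ^ (n + 1)) := by positivity
    have P := atoms_props (c := c) (w := w) (L := L) hR hw hK hL n
    have hLp : L ≤ L ^ 3 ^ (n + 1) := by
      calc L = L ^ 1 := (pow_one L).symm
        _ ≤ L ^ 3 ^ (n + 1) := pow_le_pow_right₀ hL.le (Nat.one_le_pow _ _ (by norm_num))
    -- the separation of the two subtrees
    have sep : ∀ q : ℝ, 0 < q → L * (q / L ^ 3 ^ (n + 1)) ≤ q / L / L ^ ee n := by
      intro q hq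
      have e1 : 3 ^ (n + 1) = ee n + 2 + (ee n + 1) := by
        have := ee_eq n; omega
      rw [e1, pow_add, pow_add, div_div, ← mul_div_assoc,
        div_le_div_iff₀ (by positivity) (by positivity)]
      have h1 : (1 : ℝ) ≤ L ^ (ee n + 1) := one_le_pow₀ hL.le
      have h2 : 0 < L ^ ee n := by positivity
      have e2 : L * q * (L * L ^ ee n) = q * (L ^ ee n * L ^ 2) * 1 := by ring
      rw [e2, show q * (L ^ ee n * L ^ 2 * L ^ (ee n + 1))
        = q * (L ^ ee n * L ^ 2) * L ^ (ee n + 1) by ring]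
      exact mul_le_mul_of_nonneg_left h1 (by positivity)
    rcases ha.2 with ⟨_, rfl⟩ | ha' | ha'
    · -- a is the root: b lies outside
      rcases hb.2 with ⟨_, rfl⟩ | hb' | hb'
      · exact absurd rfl hab
      · obtain ⟨_, _, _, a2, _, _⟩ := P _ _ _ _ _ hU' hM' hq1p hq2p b hb'
        right; right
        show L * b.q2 ≤ q2
        calc L * b.q2 ≤ L * (q2 / L) := mul_le_mul_of_nonneg_left a2 hL0.le
          _ = q2 := by field_simp
      · obtain ⟨_, _, a1, _, _, _⟩ := P _ _ _ _ _ hU' hM' hq1m hq2m b hb'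
        right; left
        show L * b.q1 ≤ q1
        calc L * b.q1 ≤ L * (q1 / L) := mul_le_mul_of_nonneg_left a1 hL0.le
          _ = q1 := by field_simp
    · obtain ⟨_, hUU, _, _, a3, a4⟩ := P _ _ _ _ _ hU' hM' hq1p hq2p a ha'
      rcases hb.2 with ⟨_, rfl⟩ | hb' | hb'
      · exact Or.inl hUU
      · exact ih _ _ _ _ _ hU' hM' hq1p hq2p a ha' b hb' hab
      · obtain ⟨_, _, _, b2, _, _⟩ := P _ _ _ _ _ hU' hM' hq1m hq2m b hb'
        right; right
        calc L * b.q2 ≤ L * (q2 / L ^ 3 ^ (n + 1)) := mul_le_mul_of_nonneg_left b2 hL0.le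
          _ ≤ q2 / L / L ^ ee n := sep q2 hq2
          _ ≤ a.q2 := a4
    · obtain ⟨_, hUU, _, _, a3, a4⟩ := P _ _ _ _ _ hU' hM' hq1m hq2m a ha'
      rcases hb.2 with ⟨_, rfl⟩ | hb' | hb'
      · exact Or.inl hUU
      · obtain ⟨_, _, b1, _, _, _⟩ := P _ _ _ _ _ hU' hM' hq1p hq2p b hb'
        right; left
        calc L * b.q1 ≤ L * (q1 / L ^ 3 ^ (n + 1)) := mul_le_mul_of_nonneg_left b1 hL0.le
          _ ≤ q1 / L / L ^ ee n := sep q1 hq1
          _ ≤ a.q1 := a3
      · exact ih _ _ _ _ _ hU' hM' hq1m hq2m a ha' b hb' hab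

/-- The pairwise inequality from the mutual position. -/
lemma Rel.ineq {c c' : ℝ} {R R' : ℕ} {w w' : ℝ} {L : ℝ} {a b : Atom} (h : Rel L a b)
    (ha : InBlock c R w a) (hb : InBlock c' R' w' b) (hc : 0 ≤ c)
    (hw' : w' ≤ 1) (hc' : c' ≤ 1) (hR' : 2 / (R' : ℝ) ≤ 2)
    (hL1 : 1 ≤ L) (hL : 272 ≤ b.r * (L - 1)) (hq1 : 1 ≤ b.q1) (hq2 : 1 ≤ b.q2) {p : R3}
    (hp : p ∈ b.box) : b.val + dot p (a.z - b.z) ≤ a.val := by
  have hz : a.z = ![a.x, -a.q1, -a.q2] := rfl
  have hr1 : b.r ≤ 1 := by have := hb.r_le; linarith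
  rcases h with h | h
  · rw [hz]
    exact le_trans (Atom.cone_le_post hb.reg hp _ _ _ ha.reg.q1pos.le ha.reg.q2pos.le) (h a.x)
  · have h1 : b.val + dot p (a.z - b.z) ≤ 0 := by
      rw [hz]
      refine Atom.cone_kill hb.reg hp _ _ _ ha.reg.q1pos.le ha.reg.q2pos.le (by linarith)
        (by linarith) (by linarith) ?_ hb.x_le ha.x_le hL1 hL h
      have h2 := hb.pre_le b.x
      have h3 : max b.x 0 ≤ 10 := max_le (le_trans (le_abs_self _) hb.x_le) (by norm_num)
      show b.U b.x ≤ 13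
      linarith
    have h2 : 0 ≤ a.val := by
      have := ha.reg.good.base a.x
      have h3 := le_max_right a.x 0
      show 0 ≤ a.U a.x
      linarith
    linarith

/-- Related atoms have different positions. -/
lemma Rel.z_ne {c c' : ℝ} {a b : Atom} {L L' : ℝ} (h : Rel L a b) (h' : Rel L' b a)
    (ha : Atom.Reg c a) (hb : Atom.Reg c' b) (hL : 1 < L) (hL' : 1 < L') : a.z ≠ b.z := by
  intro hz
  have z0 : a.x = b.x := by have := congrFun hz 0; simpa [Atom.z] using this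
  have z1 : a.q1 = b.q1 := by have := congrFun hz 1; simpa [Atom.z] using this
  have z2 : a.q2 = b.q2 := by have := congrFun hz 2; simpa [Atom.z] using this
  have hq1 := ha.q1pos; have hq2 := ha.q2pos
  have g1 : ∀ x, b.post x ≤ a.U x := by
    rcases h with h | h | h
    · exact h
    · exfalso; rw [← z1] at h; nlinarith
    · exfalso; rw [← z2] at h; nlinarith
  have g2 : ∀ x, a.post x ≤ b.U x := by
    rcases h' with h | h | h
    · exact h
    · exfalso; rw [← z1] at h; nlinarith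
    · exfalso; rw [← z2] at h; nlinarith
  have e1 := g1 b.x
  have e2 := g2 a.x
  have f1 : b.post b.x = b.U b.x + b.r := topple_self hb.hw hb.good b.x
  have f2 : a.post a.x = a.U a.x + a.r := topple_self ha.hw ha.good a.x
  rw [f1, ← z0] at e1
  rw [f2] at e2
  have := ha.rpos; have := hb.rpos
  linarith

end Pool.Agent.Kolodziej
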