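import Mathlib
import Pool.Agent.Kolodziej.Atoms

/-!
The upper bound for potentials with large atoms.
-/

namespace Pool.Agent.Kolodziej

open MeasureTheory Set

/-- One step of the upper bound. -/
lemma upper_step {φ : R3 → ℝ} (hφ : IsToricPotential φ) {w q1 q2 : ℝ} (hw : 0 < w)
    (hq1 : 0 < q1) (hq2 : 0 < q2) {x a1 a2 b1 b2 : ℝ} (ha1 : a1 ≤ q1 / 2) (ha2 : a2 ≤ q2 / 2)
    (hb1 : b1 ≤ q1 / 2) (hb2 : b2 ≤ q2 / 2) {β βp βm r : ℝ} (hr : 0 ≤ r)
    (hp : φ ![x + w, -a1, -a2] ≤ βp) (hm : φ ![x - w, -b1, -b2] ≤ βm)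
    (hsum : βp + βm - 2 * β ≤ 4 * r)
    (hvol : ENNReal.ofReal (64 * r ^ 3 / (w * q1 * q2)) < volume (subgrad φ ![x, -q1, -q2])) :
    φ ![x, -q1, -q2] ≤ β := by
  by_contra hcon
  push Not at hcon
  set z : R3 := ![x, -q1, -q2] with hz
  set s : ℝ := βp + βm - 2 * φ z with hs
  have hs4 : s ≤ 4 * r := by rw [hs]; linarith
  have hsub : subgrad φ z ⊆ Icc ![(φ z - βm) / w, 0, 0] ![(βp - φ z) / w, s / q1, s / q2] := by
    intro p hpz
    have d1 := hpz ![x + w, -a1, -a2]
    have d2 := hpz ![x - w, -b1, -b2]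
    have n1 := hφ.subgrad_le hpz ![0, -1, 0]
    have n2 := hφ.subgrad_le hpz ![0, 0, -1]
    simp only [dot, psi, hz, Pi.sub_apply, Matrix.cons_val_zero, Matrix.cons_val_one,
      Matrix.cons_val] at d1 d2 n1 n2
    have m1 : max (-1 : ℝ) 0 = 0 := max_eq_right (by norm_num)
    have m0 : max (0 : ℝ) 0 = 0 := max_self 0
    rw [m1, m0] at n1 n2
    have p1 : 0 ≤ p 1 := by linarith
    have p2 : 0 ≤ p 2 := by linarith
    rw [← hz] at d1 d2
    have e1 : p 1 * (q1 / 2) ≤ p 1 * (-a1 - -q1) := mul_le_mul_of_nonneg_left (by linarith) p1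
    have e2 : p 2 * (q2 / 2) ≤ p 2 * (-a2 - -q2) := mul_le_mul_of_nonneg_left (by linarith) p2
    have e3 : p 1 * (q1 / 2) ≤ p 1 * (-b1 - -q1) := mul_le_mul_of_nonneg_left (by linarith) p1
    have e4 : p 2 * (q2 / 2) ≤ p 2 * (-b2 - -q2) := mul_le_mul_of_nonneg_left (by linarith) p2
    have g1 : 0 ≤ p 1 * q1 := mul_nonneg p1 hq1.le
    have g2 : 0 ≤ p 2 * q2 := mul_nonneg p2 hq2.le
    have x1 : p 0 * (x + w - x) = p 0 * w := by ring
    have x2 : p 0 * (x - w - x) = -(p 0 * w) := by ring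
    rw [x1] at d1
    rw [x2] at d2
    constructor
    · intro m
      fin_cases m
      · show (φ z - βm) / w ≤ p 0
        rw [div_le_iff₀ hw]; linarith
      · exact p1
      · exact p2
    · intro m
      fin_cases m
      · show p 0 ≤ (βp - φ z) / w
        rw [le_div_iff₀ hw]; linarith
      · show p 1 ≤ s / q1
        rw [le_div_iff₀ hq1, hs]; linarith
      · show p 2 ≤ s / q2
        rw [le_div_iff₀ hq2, hs]; linarith
  have hle : volume (subgrad φ z) ≤ ENNReal.ofReal (64 * r ^ 3 / (w * q1 * q2)) := by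
    refine le_trans (measure_mono hsub) ?_
    rw [Real.volume_Icc_pi, Fin.prod_univ_three]
    simp only [Matrix.cons_val_zero, Matrix.cons_val_one, Matrix.cons_val, sub_zero]
    have e0 : (βp - φ z) / w - (φ z - βm) / w = s / w := by rw [hs]; ring
    rw [e0]
    have t0 : ENNReal.ofReal (s / w) ≤ ENNReal.ofReal (4 * r / w) :=
      ENNReal.ofReal_le_ofReal (div_le_div_of_nonneg_right hs4 hw.le)
    have t1 : ENNReal.ofReal (s / q1) ≤ ENNReal.ofReal (4 * r / q1) :=
      ENNReal.ofReal_le_ofReal (div_le_div_of_nonneg_right hs4 hq1.le)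
    have t2 : ENNReal.ofReal (s / q2) ≤ ENNReal.ofReal (4 * r / q2) :=
      ENNReal.ofReal_le_ofReal (div_le_div_of_nonneg_right hs4 hq2.le)
    refine le_trans (mul_le_mul' (mul_le_mul' t0 t1) t2) ?_
    rw [← ENNReal.ofReal_mul (by positivity), ← ENNReal.ofReal_mul (by positivity)]
    apply ENNReal.ofReal_le_ofReal
    apply le_of_eq
    field_simp
    ring
  exact absurd hvol (not_lt.2 hle)

/-- The potential is monotone in the last two variables. -/
lemma IsToricPotential.mono23 {φ : R3 → ℝ} (hφ : IsToricPotential φ) {x a1 a2 b1 b2 : ℝ}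
    (h1 : b1 ≤ a1) (h2 : b2 ≤ a2) : φ ![x, -a1, -a2] ≤ φ ![x, -b1, -b2] := by
  have h := hφ.add_le ![x, -b1, -b2] ![0, b1 - a1, b2 - a2]
  have e : (![x, -b1, -b2] : R3) + ![0, b1 - a1, b2 - a2] = ![x, -a1, -a2] := by
    ext m
    fin_cases m <;> simp <;> ring
  rw [e] at h
  have e2 : psi ![0, b1 - a1, b2 - a2] = 0 := by
    simp only [psi, Matrix.cons_val_zero, Matrix.cons_val_one, Matrix.cons_val]
    rw [max_self, max_eq_right (by linarith), max_eq_right (by linarith)]
    ring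
  rw [e2] at h
  linarith

/-- The upper bound along the tree. -/
theorem upper_tree {φ : R3 → ℝ} (hφ : IsToricPotential φ) {c w L : ℝ} {K : ℕ} (hw : 0 < w)
    (hL : 2 ≤ L) {S B : ℝ} (hS : 0 < S)
    (hB : ∀ x, φ ![x, -S, -S] ≤ B + max x 0) (n : ℕ) :
    ∀ (U : ℝ → ℝ) (T : ℝ) (j : ℤ) (q1 q2 : ℝ), Good c U →
      S * L ^ ee n ≤ q1 → S * L ^ ee n ≤ q2 →
      (∀ a ∈ atoms w K L n U T j q1 q2,
        ENNReal.ofReal (64 * a.r ^ 3 / (w * a.q1 * a.q2)) < volume (subgrad φ a.z)) →
      φ ![j * w, -q1, -q2] ≤ B - c + U (j * w) - GG w K n U T j := by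
  have hL1 : 1 ≤ L := by linarith
  have hL0 : 0 < L := by linarith
  -- the bound at the leaves
  have leaf : ∀ (m : ℕ) (U : ℝ → ℝ) (j : ℤ) (q1 q2 : ℝ), Good c U →
      S * L ^ ee m ≤ q1 → S * L ^ ee m ≤ q2 →
      φ ![j * w, -q1, -q2] ≤ B - c + U (j * w) := by
    intro m U j q1 q2 hU h1 h2
    have hone : (1 : ℝ) ≤ L ^ ee m := one_le_pow₀ hL1
    have h3 : S ≤ S * L ^ ee m := by nlinarith
    have h4 := hφ.mono23 (x := j * w) (a1 := q1) (a2 := q2) (b1 := S) (b2 := S)
      (by linarith) (by linarith)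
    have h5 := hB (j * w)
    have h6 := hU.base (j * w)
    linarith
  induction n with
  | zero =>
    intro U T j q1 q2 hU h1 h2 _
    have := leaf 0 U j q1 q2 hU h1 h2
    simp only [GG]
    linarith
  | succ n ih =>
    intro U T j q1 q2 hU h1 h2 hat
    rw [GG]
    split_ifs with hstop
    · have := leaf (n + 1) U j q1 q2 hU h1 h2
      linarith
    · have hr0 := rr_nonneg hw hU (j * w)
      have hU' := hU.topple hw (j * w)
      have eexp : L ^ ee (n + 1) = L ^ 3 ^ (n + 1) * L ^ ee n := by rw [← pow_add]; rfl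
      have hLp : L ≤ L ^ 3 ^ (n + 1) := by
        calc L = L ^ 1 := (pow_one L).symm
          _ ≤ L ^ 3 ^ (n + 1) := pow_le_pow_right₀ hL1 (Nat.one_le_pow _ _ (by norm_num))
      have hpow0 : 0 < L ^ 3 ^ (n + 1) := by positivity
      have hpe0 : 0 < L ^ ee n := by positivity
      have hq1 : 0 < q1 := lt_of_lt_of_le (by positivity) h1
      have hq2 : 0 < q2 := lt_of_lt_of_le (by positivity) h2
      -- position bounds for the children
      have big : ∀ q : ℝ, S * L ^ ee (n + 1) ≤ q → S * L ^ ee n ≤ q / L ^ 3 ^ (n + 1) := by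
        intro q hq
        rw [le_div_iff₀ hpow0]
        calc S * L ^ ee n * L ^ 3 ^ (n + 1) = S * L ^ ee (n + 1) := by rw [eexp]; ring
          _ ≤ q := hq
      have small : ∀ q : ℝ, 0 < q → S * L ^ ee (n + 1) ≤ q → S * L ^ ee n ≤ q / L := by
        intro q hq0 hq
        refine le_trans (big q hq) ?_
        exact div_le_div_of_nonneg_left hq0.le hL0 hLp
      have i1 := ih (topple w U (j * w)) (T + rr w U (j * w)) (j + 1) _ _ hU'
        (big q1 h1) (small q2 hq2 h2)
        (fun a ha => hat a (mem_atoms_succ.2 ⟨hstop, Or.inr (Or.inl ha)⟩))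
      have i2 := ih (topple w U (j * w)) (T + rr w U (j * w)) (j - 1) _ _ hU'
        (small q1 hq1 h1) (big q2 h2)
        (fun a ha => hat a (mem_atoms_succ.2 ⟨hstop, Or.inr (Or.inr ha)⟩))
      have x1 : ((j + 1 : ℤ) : ℝ) * w = j * w + w := by push_cast; ring
      have x2 : ((j - 1 : ℤ) : ℝ) * w = j * w - w := by push_cast; ring
      have e1 : topple w U (j * w) (j * w + w) = U (j * w + w) := by
        apply topple_far hw hU
        rw [add_sub_cancel_left, abs_of_pos hw]
      have e2 : topple w U (j * w) (j * w - w) = U (j * w - w) := by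
        apply topple_far hw hU
        have : (j : ℝ) * w - w - j * w = -w := by ring
        rw [this, abs_neg, abs_of_pos hw]
      rw [x1, e1] at i1
      rw [x2, e2] at i2
      set Gp := GG w K n (topple w U (j * w)) (T + rr w U (j * w)) (j + 1) with hGp
      set Gm := GG w K n (topple w U (j * w)) (T + rr w U (j * w)) (j - 1) with hGm
      have hrdef : U (j * w + w) + U (j * w - w) = 2 * (rr w U (j * w) + U (j * w)) := by
        unfold rr; ring
      have half : ∀ q : ℝ, 0 < q → q / L ≤ q / 2 := fun q hq =>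
        div_le_div_of_nonneg_left hq.le (by norm_num) hL
      have halfp : ∀ q : ℝ, 0 < q → q / L ^ 3 ^ (n + 1) ≤ q / 2 := fun q hq =>
        div_le_div_of_nonneg_left hq.le (by norm_num) (le_trans hL hLp)
      rcases hr0.eq_or_lt with hr | hr
      · -- zero mass: convexity
        have hcx := hφ.1.2 (mem_univ (![j * w + w, -q1, -q2] : R3))
          (mem_univ (![j * w - w, -q1, -q2] : R3)) (by norm_num : (0 : ℝ) ≤ 1 / 2)
          (by norm_num : (0 : ℝ) ≤ 1 / 2) (by norm_num)
        have e : (1 / 2 : ℝ) • (![j * w + w, -q1, -q2] : R3) + (1 / 2 : ℝ) • ![j * w - w, -q1, -q2]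
            = ![j * w, -q1, -q2] := by
          ext m
          fin_cases m
          · simp; ring
          · simp; ring
          · simp; ring
        rw [e] at hcx
        simp only [smul_eq_mul] at hcx
        have m1 := hφ.mono23 (x := j * w + w) (a1 := q1) (a2 := q2) (b1 := q1 / L ^ 3 ^ (n + 1))
          (b2 := q2 / L) (by linarith [halfp q1 hq1]) (by linarith [half q2 hq2])
        have m2 := hφ.mono23 (x := j * w - w) (a1 := q1) (a2 := q2) (b1 := q1 / L)
          (b2 := q2 / L ^ 3 ^ (n + 1)) (by linarith [half q1 hq1]) (by linarith [halfp q2 hq2])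
        linarith
      · have hvol := hat ⟨U, j * w, w, q1, q2⟩ (mem_atoms_succ.2 ⟨hstop, Or.inl ⟨hr, rfl⟩⟩)
        refine upper_step hφ hw hq1 hq2 (halfp q1 hq1) (half q2 hq2) (half q1 hq1)
          (halfp q2 hq2) hr0 i1 i2 ?_ hvol
        linarith

end Pool.Agent.Kolodziej
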