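import Mathlib
import Pool.Agent.Kolodziej.Upper

/-!
The bounded subsolution problem fails for toric potentials in dimension three.
-/

namespace Pool.Agent.Kolodziej.ToricCounterexample

open MeasureTheory Set Pool.Agent.Kolodziej

/-- The lattice parameter of block `k`. -/
def Rk (k : ℕ) : ℕ := 2 ^ (k + 2)
noncomputable def wk (k : ℕ) : ℝ := 1 / (Rk k : ℝ) ^ 2
def Kk (k : ℕ) : ℕ := 10 * (Rk k) ^ 2
def Dk (k : ℕ) : ℕ := 4 * (Kk k) ^ 2
noncomputable def ck (k : ℕ) : ℝ := (1 / 2) ^ k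
noncomputable def U0 (k : ℕ) : ℝ → ℝ := fun x => ck k + max x 0
noncomputable def rhok (k : ℕ) : ℝ := Classical.choose (exists_rmin (wk k) (Kk k) (Dk k) (U0 k) 0 0)
noncomputable def Lk (k : ℕ) : ℝ := 2 + 272 / rhok k
noncomputable def Sk : ℕ → ℝ
  | 0 => 100
  | k + 1 => Lk k * (Sk k * Lk k ^ ee (Dk k))
noncomputable def Qk (k : ℕ) : ℝ := Sk k * Lk k ^ ee (Dk k)
noncomputable def block (k : ℕ) : Set Atom :=
  atoms (wk k) (Kk k) (Lk k) (Dk k) (U0 k) 0 0 (Qk k) (Qk k)

lemma Rk_pos (k : ℕ) : 0 < Rk k := by unfold Rk; positivity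

lemma Rk_pos' (k : ℕ) : (0 : ℝ) < Rk k := by exact_mod_cast Rk_pos k

lemma wk_pos (k : ℕ) : 0 < wk k := by
  have := Rk_pos' k
  unfold wk; positivity

lemma Rk_ge (k : ℕ) : (4 : ℝ) ≤ Rk k := by
  have : 4 ≤ Rk k := by
    unfold Rk
    calc 4 = 2 ^ 2 := by norm_num
      _ ≤ 2 ^ (k + 2) := Nat.pow_le_pow_right (by norm_num) (by omega)
  exact_mod_cast this

lemma wk_le (k : ℕ) : wk k ≤ 1 := by
  have := Rk_ge k
  unfold wk
  rw [div_le_one (by positivity)]
  nlinarith

lemma wk_Kk (k : ℕ) : wk k * Kk k = 10 := by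
  have := Rk_pos' k
  unfold wk Kk
  push_cast
  field_simp

lemma rhok_spec (k : ℕ) : 0 < rhok k ∧ ∀ (L q1 q2 : ℝ),
    ∀ a ∈ atoms (wk k) (Kk k) L (Dk k) (U0 k) 0 0 q1 q2, rhok k ≤ a.r :=
  Classical.choose_spec (exists_rmin (wk k) (Kk k) (Dk k) (U0 k) 0 0)

lemma Lk_ge (k : ℕ) : 2 ≤ Lk k := by
  have := (rhok_spec k).1
  unfold Lk
  have : 0 ≤ 272 / rhok k := by positivity
  linarith

lemma Lk_pos (k : ℕ) : 0 < Lk k := lt_of_lt_of_le (by norm_num) (Lk_ge k)

lemma Sk_ge (k : ℕ) : 100 ≤ Sk k := by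
  induction k with
  | zero => exact le_rfl
  | succ k ih =>
    have h1 := Lk_ge k
    have h2 : 1 ≤ Lk k ^ ee (Dk k) := one_le_pow₀ (by linarith)
    have h3 : Sk k ≤ Sk k * Lk k ^ ee (Dk k) := by nlinarith
    show 100 ≤ Lk k * (Sk k * Lk k ^ ee (Dk k))
    nlinarith

lemma Qk_ge (k : ℕ) : Sk k ≤ Qk k := by
  have h1 := Lk_ge k
  have h2 : 1 ≤ Lk k ^ ee (Dk k) := one_le_pow₀ (by linarith)
  have := Sk_ge k
  unfold Qk
  nlinarith

lemma Qk_pos (k : ℕ) : 0 < Qk k := by
  have := Sk_ge k; have := Qk_ge k; linarith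

lemma Sk_succ (k : ℕ) : Sk (k + 1) = Lk k * Qk k := rfl

lemma Sk_mono' (k : ℕ) : Sk k ≤ Sk (k + 1) := by
  rw [Sk_succ]
  have := Lk_ge k; have := Qk_ge k; have := Qk_pos k
  nlinarith

lemma Sk_mono {k l : ℕ} (h : k ≤ l) : Sk k ≤ Sk l := monotone_nat_of_le_succ Sk_mono' h

lemma massLe_zero (k : ℕ) : MassLe (ck k) (Rk k) (wk k) (U0 k) 0 := by
  unfold MassLe
  apply le_of_eq
  apply Finset.sum_eq_zero
  intro i _
  show ck k + max ((i : ℝ) * wk k) 0 - (ck k + max ((i : ℝ) * wk k) 0) = 0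
  ring

lemma block_props (k : ℕ) {a : Atom} (ha : a ∈ block k) :
    InBlock (ck k) (Rk k) (wk k) a ∧ a.q1 ≤ Qk k ∧ a.q2 ≤ Qk k ∧ Sk k ≤ a.q1 ∧ Sk k ≤ a.q2 := by
  have hL := Lk_ge k
  obtain ⟨h1, _, h2, h3, h4, h5⟩ := atoms_props (Rk_pos k) rfl (wk_Kk k)
    (by linarith : 1 < Lk k) (Dk k) (U0 k) 0 0 (Qk k) (Qk k) (good_init (ck k)) (massLe_zero k)
    (Qk_pos k) (Qk_pos k) a ha
  have e : Qk k / Lk k ^ ee (Dk k) = Sk k := by
    unfold Qk
    have : 0 < Lk k ^ ee (Dk k) := pow_pos (Lk_pos k) _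
    field_simp
  rw [e] at h4 h5
  exact ⟨h1, h2, h3, h4, h5⟩

lemma ck_pos (k : ℕ) : 0 < ck k := by unfold ck; positivity

lemma ck_le (k : ℕ) : ck k ≤ 1 := by
  unfold ck; exact pow_le_one₀ (by norm_num) (by norm_num)

lemma ck_step {k l : ℕ} (h : k < l) : ck l + 2 / (Rk l : ℝ) ≤ ck k := by
  have h1 : ck l ≤ ck (k + 1) := by
    unfold ck
    exact pow_le_pow_of_le_one (by norm_num) (by norm_num) h
  have h2 : 2 / (Rk l : ℝ) ≤ ck (k + 1) := by
    unfold ck Rk
    push_cast
    have e : (2 : ℝ) / 2 ^ (l + 2) = (1 / 2) ^ (l + 1) := by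
      rw [one_div, inv_pow]
      field_simp
      ring
    rw [e]
    exact pow_le_pow_of_le_one (by norm_num) (by norm_num) (by omega)
  have h3 : ck (k + 1) + ck (k + 1) = ck k := by
    unfold ck
    rw [pow_succ]; ring
  linarith

lemma block_rel {k l : ℕ} {a b : Atom} (ha : a ∈ block k) (hb : b ∈ block l) (hab : a ≠ b) :
    Rel (Lk l) a b := by
  obtain ⟨ha1, ha2, ha3, ha4, ha5⟩ := block_props k ha
  obtain ⟨hb1, hb2, hb3, hb4, hb5⟩ := block_props l hb
  rcases lt_trichotomy k l with h | h | h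
  · left
    intro x
    have h1 := hb1.post_le x
    have h2 := ha1.reg.good.base x
    have h3 := ck_step h
    linarith
  · subst h
    have hL := Lk_ge k
    exact atoms_rel (Rk_pos k) rfl (wk_Kk k) (by linarith : 1 < Lk k) (Dk k) (U0 k) 0 0
      (Qk k) (Qk k) (good_init (ck k)) (massLe_zero k) (Qk_pos k) (Qk_pos k) a ha b hb hab
  · right; left
    have h1 : Lk l * b.q1 ≤ Lk l * Qk l := mul_le_mul_of_nonneg_left hb2 (Lk_pos l).le
    have h2 : Lk l * Qk l ≤ Sk k := by
      rw [← Sk_succ]; exact Sk_mono h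
    linarith

lemma block_kill (l : ℕ) {b : Atom} (hb : b ∈ block l) : 272 ≤ b.r * (Lk l - 1) := by
  obtain ⟨h1, h2⟩ := rhok_spec l
  have h3 := h2 _ _ _ b hb
  have h4 : 0 ≤ 272 / rhok l := by positivity
  have h5 : rhok l * (Lk l - 1) = rhok l + 272 := by
    unfold Lk; field_simp; ring
  have h6 : rhok l * (Lk l - 1) ≤ b.r * (Lk l - 1) :=
    mul_le_mul_of_nonneg_right h3 (by have := Lk_ge l; linarith)
  linarith

/-- The index type of all atoms. -/
abbrev AtomIdx := {a : Atom // a ∈ ⋃ k, block k}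

instance : Countable AtomIdx :=
  (Set.countable_iUnion fun k => (atoms_finite _ _ _ _ _ _ _ _ _).countable).to_subtype

/-- Points of the family. -/
noncomputable def zI : Option AtomIdx → R3
  | none => 0
  | some a => a.1.z

noncomputable def valI : Option AtomIdx → ℝ
  | none => 40
  | some a => a.1.val

noncomputable def KI : Option AtomIdx → Set R3
  | none => Icc (fun _ => 1 / 4) (fun _ => 3 / 4)
  | some a => a.1.box

lemma idx_block (a : AtomIdx) : ∃ k, a.1 ∈ block k := mem_iUnion.1 a.2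

lemma atom_bounds {k : ℕ} {a : Atom} (ha : a ∈ block k) :
    100 ≤ a.q1 ∧ 100 ≤ a.q2 ∧ a.r ≤ 1 ∧ |a.x| ≤ 10 ∧ 0 ≤ a.val ∧ a.val ≤ 13 ∧
      max a.x 0 ≤ a.val := by
  obtain ⟨h1, _, _, h4, h5⟩ := block_props k ha
  have hS := Sk_ge k
  have hr := h1.r_le
  have hw := wk_le k
  have hb := h1.reg.good.base a.x
  have hm := le_max_right a.x 0
  have hc := ck_pos k
  have hc1 := ck_le k
  have hp := h1.pre_le a.x
  have hR := Rk_ge k
  have hR2 : 2 / (Rk k : ℝ) ≤ 1 := by
    rw [div_le_one (by linarith)]; linarith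
  have h3 : max a.x 0 ≤ 10 := max_le (le_trans (le_abs_self _) h1.x_le) (by norm_num)
  change _ ≤ a.val at hb
  change a.val ≤ _ at hp
  refine ⟨by linarith, by linarith, by linarith, h1.x_le, by linarith, by linarith, by linarith⟩

theorem exists_v : ∃ v : R3 → ℝ, IsToricPotential v ∧
    (∀ i, KI i ⊆ subgrad v (zI i)) ∧
    (Pairwise (Function.onFun (AEDisjoint volume) KI)) ∧
    ∀ E : Set R3, ∑' i : {i // zI i ∈ E}, volume (KI i) ≤ realMA v E := by
  apply exists_vertex_potential zI valI KI _ _ _ _ _ 40 (by norm_num) _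
  · -- slopes
    rintro (_ | a) p hp m
    · have h1 := hp.1 m; have h2 := hp.2 m
      simp only at h1 h2
      constructor <;> linarith
    · obtain ⟨k, hk⟩ := idx_block a
      obtain ⟨h1, h2, h3, _⟩ := atom_bounds hk
      exact Atom.box_slope (block_props k hk).1.reg (by linarith) (by linarith) hp m
  · rintro (_ | a)
    · exact measurableSet_Icc
    · exact measurableSet_Icc
  · -- distinct points
    rintro (_ | a) (_ | b) hab
    · exact absurd rfl hab
    · obtain ⟨k, hk⟩ := idx_block b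
      obtain ⟨h1, _⟩ := atom_bounds hk
      intro h
      have := congrFun h 1
      simp [zI, Atom.z] at this
      linarith
    · obtain ⟨k, hk⟩ := idx_block a
      obtain ⟨h1, _⟩ := atom_bounds hk
      intro h
      have := congrFun h 1
      simp [zI, Atom.z] at this
      linarith
    · obtain ⟨k, hk⟩ := idx_block a
      obtain ⟨l, hl⟩ := idx_block b
      have hne : a.1 ≠ b.1 := fun h => hab (congrArg some (Subtype.ext h))
      have hLk := Lk_ge k
      have hLl := Lk_ge l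
      exact (block_rel hk hl hne).z_ne (block_rel hl hk hne.symm) (block_props k hk).1.reg
        (block_props l hl).1.reg (by linarith) (by linarith)
  · -- the pairwise inequality
    rintro (_ | a) (_ | b) p hp
    · show (40 : ℝ) + dot p (0 - 0) ≤ 40
      simp [dot]
    · obtain ⟨k, hk⟩ := idx_block b
      obtain ⟨h1, h2, h3, h4, h5, h6, h7⟩ := atom_bounds hk
      have hreg := (block_props k hk).1.reg
      obtain ⟨s0, s1⟩ := Atom.box_slope hreg (by linarith) (by linarith) hp 0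
      obtain ⟨⟨p0, p0'⟩, ⟨p1, p1'⟩, ⟨p2, p2'⟩⟩ := Atom.mem_box hp
      have hx := abs_le.1 h4
      have hq1 := hreg.q1pos; have hq2 := hreg.q2pos
      have g1 : p 1 * b.1.q1 ≤ 1 := by
        have : p 1 * b.1.q1 ≤ b.1.r / (4 * b.1.q1) * b.1.q1 := mul_le_mul_of_nonneg_right p1' hq1.le
        have e : b.1.r / (4 * b.1.q1) * b.1.q1 = b.1.r / 4 := by field_simp
        linarith
      have g2 : p 2 * b.1.q2 ≤ 1 := by
        have : p 2 * b.1.q2 ≤ b.1.r / (4 * b.1.q2) * b.1.q2 := mul_le_mul_of_nonneg_right p2' hq2.le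
        have e : b.1.r / (4 * b.1.q2) * b.1.q2 = b.1.r / 4 := by field_simp
        linarith
      have g0 : -(p 0 * b.1.x) ≤ 10 := by nlinarith
      show b.1.val + dot p (0 - b.1.z) ≤ 40
      have e : dot p (0 - b.1.z) = -(p 0 * b.1.x) + p 1 * b.1.q1 + p 2 * b.1.q2 := by
        simp [dot, Atom.z]
      rw [e]; linarith
    · obtain ⟨k, hk⟩ := idx_block a
      obtain ⟨h1, h2, h3, h4, h5, h6, h7⟩ := atom_bounds hk
      have b0 := hp.1 0; have b1 := hp.1 1; have b2 := hp.1 2
      have c0 := hp.2 0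
      simp only at b0 b1 b2 c0
      have hx := abs_le.1 h4
      show (40 : ℝ) + dot p (a.1.z - 0) ≤ a.1.val
      have e : dot p (a.1.z - 0) = p 0 * a.1.x - p 1 * a.1.q1 - p 2 * a.1.q2 := by
        simp [dot, Atom.z]; ring
      rw [e]
      have g0 : p 0 * a.1.x ≤ 10 := by nlinarith
      have g1 : 25 ≤ p 1 * a.1.q1 := by nlinarith
      have g2 : 25 ≤ p 2 * a.1.q2 := by nlinarith
      linarith
    · obtain ⟨k, hk⟩ := idx_block a
      obtain ⟨l, hl⟩ := idx_block b
      by_cases hab : a.1 = b.1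
      · show b.1.val + dot p (a.1.z - b.1.z) ≤ a.1.val
        rw [hab, sub_self]
        simp [dot]
      · have hR : 2 / (Rk l : ℝ) ≤ 2 := by
          have := Rk_ge l
          rw [div_le_iff₀ (by linarith)]; linarith
        obtain ⟨h1, h2, _⟩ := atom_bounds hl
        have hLl := Lk_ge l
        exact (block_rel hk hl hab).ineq (block_props k hk).1 (block_props l hl).1
          (ck_pos k).le (wk_le l) (ck_le l) hR (by linarith) (block_kill l hl)
          (by linarith) (by linarith) hp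
  · -- above psi
    rintro (_ | a)
    · show psi 0 ≤ 40
      simp [psi]
    · obtain ⟨k, hk⟩ := idx_block a
      obtain ⟨h1, h2, h3, h4, h5, h6, h7⟩ := atom_bounds hk
      show psi a.1.z ≤ a.1.val
      have e : psi a.1.z = max a.1.x 0 := by
        simp only [psi, Atom.z, Matrix.cons_val_zero, Matrix.cons_val_one, Matrix.cons_val]
        rw [max_eq_right (by linarith : -a.1.q1 ≤ 0), max_eq_right (by linarith : -a.1.q2 ≤ 0)]
        ring
      rw [e]; exact h7
  · rintro (_ | a) p hp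
    · show (40 : ℝ) - dot p 0 ≤ 40
      simp [dot]
    · obtain ⟨k, hk⟩ := idx_block a
      obtain ⟨h1, h2, h3, h4, h5, h6, h7⟩ := atom_bounds hk
      have hreg := (block_props k hk).1.reg
      obtain ⟨s0, s1⟩ := Atom.box_slope hreg (by linarith) (by linarith) hp 0
      obtain ⟨⟨p0, p0'⟩, ⟨p1, p1'⟩, ⟨p2, p2'⟩⟩ := Atom.mem_box hp
      have hx := abs_le.1 h4
      have hq1 := hreg.q1pos; have hq2 := hreg.q2pos
      have g1 : p 1 * a.1.q1 ≤ 1 := by
        have : p 1 * a.1.q1 ≤ a.1.r / (4 * a.1.q1) * a.1.q1 := mul_le_mul_of_nonneg_right p1' hq1.le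
        have e : a.1.r / (4 * a.1.q1) * a.1.q1 = a.1.r / 4 := by field_simp
        linarith
      have g2 : p 2 * a.1.q2 ≤ 1 := by
        have : p 2 * a.1.q2 ≤ a.1.r / (4 * a.1.q2) * a.1.q2 := mul_le_mul_of_nonneg_right p2' hq2.le
        have e : a.1.r / (4 * a.1.q2) * a.1.q2 = a.1.r / 4 := by field_simp
        linarith
      have g0 : -(p 0 * a.1.x) ≤ 10 := by nlinarith
      show a.1.val - dot p a.1.z ≤ 40
      have e : dot p a.1.z = p 0 * a.1.x - p 1 * a.1.q1 - p 2 * a.1.q2 := by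
        simp [dot, Atom.z]; ring
      rw [e]; linarith

/-- The total volume of the boxes of the atoms is small. -/
lemma sum_boxes (hd : Pairwise (Function.onFun (AEDisjoint volume) KI)) :
    4097 * ∑' a : AtomIdx, volume a.1.box ≤ 1 := by
  have hdisj : Pairwise (Function.onFun (AEDisjoint volume) (fun a : AtomIdx => a.1.box)) :=
    fun a b hab => hd (show (some a : Option AtomIdx) ≠ some b from fun h => hab (Option.some.inj h))
  have h1 : ∑' a : AtomIdx, volume a.1.box = volume (⋃ a : AtomIdx, a.1.box) :=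
    (measure_iUnion₀ hdisj (fun a => (measurableSet_Icc).nullMeasurableSet)).symm
  rw [h1]
  have h2 : (⋃ a : AtomIdx, a.1.box) ⊆ Icc ![0, 0, 0] ![1, 1 / 400, 1 / 400] := by
    intro p hp
    obtain ⟨a, ha⟩ := mem_iUnion.1 hp
    obtain ⟨k, hk⟩ := idx_block a
    obtain ⟨h1, h2, h3, h4, h5, h6, h7⟩ := atom_bounds hk
    have hreg := (block_props k hk).1.reg
    have s := Atom.box_slope hreg (by linarith) (by linarith) ha
    obtain ⟨_, ⟨_, p1'⟩, ⟨_, p2'⟩⟩ := Atom.mem_box ha
    have hq1 := hreg.q1pos; have hq2 := hreg.q2pos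
    have b1 : a.1.r / (4 * a.1.q1) ≤ 1 / 400 := by
      rw [div_le_div_iff₀ (by positivity) (by norm_num)]; linarith
    have b2 : a.1.r / (4 * a.1.q2) ≤ 1 / 400 := by
      rw [div_le_div_iff₀ (by positivity) (by norm_num)]; linarith
    constructor
    · intro m
      fin_cases m
      · exact (s 0).1
      · exact (s 1).1
      · exact (s 2).1
    · intro m
      fin_cases m
      · exact (s 0).2
      · exact le_trans p1' b1
      · exact le_trans p2' b2
  have h3 : volume (Icc (![0, 0, 0] : R3) ![1, 1 / 400, 1 / 400]) ≤ ENNReal.ofReal (1 / 4097) := by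
    rw [Real.volume_Icc_pi, Fin.prod_univ_three]
    simp only [Matrix.cons_val_zero, Matrix.cons_val_one, Matrix.cons_val, sub_zero]
    rw [← ENNReal.ofReal_mul (by norm_num), ← ENNReal.ofReal_mul (by norm_num)]
    exact ENNReal.ofReal_le_ofReal (by norm_num)
  calc 4097 * volume (⋃ a : AtomIdx, a.1.box) ≤ 4097 * ENNReal.ofReal (1 / 4097) :=
        mul_le_mul_right (le_trans (measure_mono h2) h3) _
    _ = 1 := by
      rw [show (4097 : ENNReal) = ENNReal.ofReal 4097 by simp, ← ENNReal.ofReal_mul (by norm_num)]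
      norm_num

/-- The weights. -/
noncomputable def wt : Option AtomIdx → ENNReal
  | none => 1 - 4097 * ∑' a : AtomIdx, volume a.1.box
  | some a => 4097 * volume a.1.box

/-- The measure. -/
noncomputable def mu : Measure R3 := Measure.sum fun i : Option AtomIdx => wt i • Measure.dirac (zI i)

lemma mu_prob (hd : Pairwise (Function.onFun (AEDisjoint volume) KI)) : IsProbabilityMeasure mu := by
  classical
  constructor
  unfold mu
  rw [Measure.sum_apply _ MeasurableSet.univ]
  simp only [Measure.smul_apply, measure_univ, smul_eq_mul, mul_one]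
  rw [ENNReal.summable.tsum_eq_add_tsum_ite' (f := wt) none]
  have hsupp : Function.support (fun x => ite (x = none) 0 (wt x)) ⊆
      Set.range (some : AtomIdx → Option AtomIdx) := by
    rintro (_ | a) hx
    · simp at hx
    · exact ⟨a, rfl⟩
  rw [← (Option.some_injective AtomIdx).tsum_eq hsupp]
  simp only [reduceCtorEq, if_false]
  simp only [wt]
  rw [ENNReal.tsum_mul_left]
  exact tsub_add_cancel_of_le (sum_boxes hd)

lemma mu_le {v : R3 → ℝ} (hv : ∀ E : Set R3, ∑' i : {i // zI i ∈ E}, volume (KI i) ≤ realMA v E)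
    {E : Set R3} (hE : MeasurableSet E) : mu E ≤ 4097 * realMA v E := by
  classical
  unfold mu
  rw [Measure.sum_apply _ hE]
  have hwt : ∀ i, wt i ≤ 4097 * volume (KI i) := by
    rintro (_ | a)
    · have h1 : wt none ≤ 1 := tsub_le_self
      refine le_trans h1 ?_
      show (1 : ENNReal) ≤ 4097 * volume (Icc (fun _ : Fin 3 => (1 / 4 : ℝ)) (fun _ => 3 / 4))
      rw [Real.volume_Icc_pi, Fin.prod_univ_three]
      rw [← ENNReal.ofReal_mul (by norm_num), ← ENNReal.ofReal_mul (by norm_num),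
        show (4097 : ENNReal) = ENNReal.ofReal 4097 by simp, ← ENNReal.ofReal_mul (by norm_num),
        ← ENNReal.ofReal_one]
      exact ENNReal.ofReal_le_ofReal (by norm_num)
    · exact le_rfl
  calc ∑' i, (wt i • Measure.dirac (zI i)) E
      ≤ ∑' i, 4097 * ({i | zI i ∈ E} : Set (Option AtomIdx)).indicator (fun i => volume (KI i)) i := by
        apply ENNReal.tsum_le_tsum
        intro i
        rw [Measure.smul_apply, Measure.dirac_apply' _ hE, smul_eq_mul]
        by_cases hi : zI i ∈ E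
        · rw [indicator_of_mem hi, indicator_of_mem (show i ∈ {i | zI i ∈ E} from hi)]
          simpa using hwt i
        · rw [indicator_of_notMem hi]; simp
    _ = 4097 * ∑' i : {i // zI i ∈ E}, volume (KI i) := by
        rw [ENNReal.tsum_mul_left]
        congr 1
        exact (tsum_subtype ({i | zI i ∈ E} : Set (Option AtomIdx)) (fun i => volume (KI i))).symm
    _ ≤ 4097 * realMA v E := mul_le_mul_right (hv E) _

lemma mu_atom {k : ℕ} {a : Atom} (ha : a ∈ block k) :
    ENNReal.ofReal (64 * a.r ^ 3 / (wk k * a.q1 * a.q2)) < mu {a.z} := by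
  have hreg := (block_props k ha).1.reg
  have hweq := (block_props k ha).1.w_eq
  have hw := hreg.hw; have hq1 := hreg.q1pos; have hq2 := hreg.q2pos; have hr := hreg.rpos
  have h1 : wt (some ⟨a, mem_iUnion.2 ⟨k, ha⟩⟩) ≤ mu {a.z} := by
    unfold mu
    rw [Measure.sum_apply _ (measurableSet_singleton _)]
    refine le_trans ?_ (ENNReal.le_tsum (some ⟨a, mem_iUnion.2 ⟨k, ha⟩⟩))
    rw [Measure.smul_apply, Measure.dirac_apply' _ (measurableSet_singleton _), smul_eq_mul]
    rw [indicator_of_mem (show zI (some ⟨a, mem_iUnion.2 ⟨k, ha⟩⟩) ∈ ({a.z} : Set R3) from rfl)]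
    simp
  refine lt_of_lt_of_le ?_ h1
  show _ < 4097 * volume a.box
  rw [Atom.volume_box hreg, show (4097 : ENNReal) = ENNReal.ofReal 4097 by simp,
    ← ENNReal.ofReal_mul (by norm_num)]
  apply (ENNReal.ofReal_lt_ofReal_iff (by positivity)).2
  rw [← hweq]
  have e : 4097 * (a.r ^ 3 / (64 * a.w * a.q1 * a.q2))
      = 64 * a.r ^ 3 / (a.w * a.q1 * a.q2) + a.r ^ 3 / (64 * a.w * a.q1 * a.q2) := by
    field_simp; ring
  rw [e]
  have : 0 < a.r ^ 3 / (64 * a.w * a.q1 * a.q2) := by positivity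
  linarith

/-- The expected raise of each block is at least one quarter. -/
lemma GG_block (k : ℕ) : 1 / 4 ≤ GG (wk k) (Kk k) (Dk k) (U0 k) 0 0 := by
  have hw := wk_pos k
  have hw1 := wk_le k
  have hK : 0 < (Kk k : ℝ) := by
    have : 0 < Kk k := by unfold Kk; have := Rk_pos k; positivity
    exact_mod_cast this
  have hD : (Dk k : ℝ) = 4 * (Kk k : ℝ) ^ 2 := by unfold Dk; push_cast; ring
  have hD0 : 0 < (Dk k : ℝ) := by rw [hD]; positivity
  have h := GG_ge hw (wk_Kk k) hD0 (Dk k) (U0 k) 0 0 (good_init (ck k)) le_rfl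
    (by linarith) (by simp) le_rfl
  have e1 : U0 k (((0 : ℤ) : ℝ) * wk k) = ck k := by
    simp [U0]
  rw [e1] at h
  have e2 : ((Dk k : ℝ) - (Dk k : ℝ) + (Kk k : ℝ) ^ 2 - ((0 : ℤ) : ℝ) ^ 2) / (Dk k : ℝ) = 1 / 4 := by
    rw [hD]; push_cast; field_simp; ring
  rw [e2] at h
  push_cast at h
  linarith

/-- No bounded solution. -/
theorem no_solution {φ : R3 → ℝ} (hφ : IsToricPotential φ)
    (h : ∀ E, MeasurableSet E → realMA φ E = mu E) : False := by
  obtain ⟨A, hA⟩ := hφ.2
  have hsingle : ∀ z : R3, volume (subgrad φ z) = mu {z} := by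
    intro z
    rw [← h _ (measurableSet_singleton z)]
    unfold realMA
    simp
  have key : ∀ k : ℕ, ∀ x, φ ![x, -Sk k, -Sk k] ≤ (A - k / 4) + max x 0 := by
    intro k
    induction k with
    | zero =>
      intro x
      have h1 := (abs_le.1 (hA ![x, -Sk 0, -Sk 0])).2
      have h2 : psi ![x, -Sk 0, -Sk 0] = max x 0 := by
        have := Sk_ge 0
        simp only [psi, Matrix.cons_val_zero, Matrix.cons_val_one, Matrix.cons_val]
        rw [max_eq_right (by linarith : -Sk 0 ≤ 0)]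
        ring
      rw [h2] at h1
      push_cast
      linarith
    | succ k ih =>
      intro x
      have hS := Sk_ge k
      have h1 := upper_tree hφ (c := ck k) (K := Kk k) (wk_pos k) (Lk_ge k)
        (by linarith : 0 < Sk k) ih (Dk k)
        (U0 k) 0 0 (Qk k) (Qk k) (good_init (ck k)) le_rfl le_rfl
        (fun a ha => by rw [hsingle]; exact mu_atom ha)
      have h2 := GG_block k
      have e1 : U0 k (((0 : ℤ) : ℝ) * wk k) = ck k := by simp [U0]
      rw [e1] at h1
      have h3 := hφ.mono23 (x := x) (a1 := Sk (k + 1)) (a2 := Sk (k + 1)) (b1 := Qk k)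
        (b2 := Qk k) (by rw [Sk_succ]; have := Lk_ge k; have := Qk_pos k; nlinarith)
        (by rw [Sk_succ]; have := Lk_ge k; have := Qk_pos k; nlinarith)
      have h4 := hφ.add_le ![((0 : ℤ) : ℝ) * wk k, -Qk k, -Qk k] ![x, 0, 0]
      have e2 : (![((0 : ℤ) : ℝ) * wk k, -Qk k, -Qk k] : R3) + ![x, 0, 0] = ![x, -Qk k, -Qk k] := by
        ext m
        fin_cases m <;> simp
      have e3 : psi ![x, 0, 0] = max x 0 := by simp [psi]
      rw [e2, e3] at h4
      have h5 : φ ![x, -Sk (k + 1), -Sk (k + 1)] ≤ φ ![((0 : ℤ) : ℝ) * wk k, -Qk k, -Qk k] + max x 0 :=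
        le_trans h3 h4
      have h6 := le_trans h5 (add_le_add_left h1 (max x 0))
      push_cast
      linarith
  obtain ⟨k, hk⟩ := exists_nat_gt (8 * A)
  have h1 := key k 0
  have h2 := (abs_le.1 (hA ![0, -Sk k, -Sk k])).1
  have h3 : psi ![0, -Sk k, -Sk k] = 0 := by
    have := Sk_ge k
    simp only [psi, Matrix.cons_val_zero, Matrix.cons_val_one, Matrix.cons_val]
    rw [max_eq_right (by linarith : -Sk k ≤ 0)]
    simp
  rw [h3] at h2
  rw [max_self] at h1
  linarith

/-- The bounded subsolution problem for toric potentials on the product of three projective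
lines has a negative answer. -/
theorem result : ∃ (v : R3 → ℝ) (μ : Measure R3), IsToricPotential v ∧ IsProbabilityMeasure μ ∧
    (∀ E, MeasurableSet E → μ E ≤ 4097 * realMA v E) ∧
    ∀ φ : R3 → ℝ, IsToricPotential φ → ¬ ∀ E, MeasurableSet E → realMA φ E = μ E := by
  obtain ⟨v, hv, _, hd, hE⟩ := exists_v
  exact ⟨v, mu, hv, mu_prob hd, fun E hm => mu_le hE hm, fun φ hφ h => no_solution hφ h⟩

end Pool.Agent.Kolodziej.ToricCounterexample
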